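import Mathlib

/-! Greedy random walk: definitions, supermartingale criterion for recurrence, existence. -/

namespace Pool.Agent.H.GRW

open MeasureTheory Filter Function
open scoped ENNReal Classical Topology

/-- The edge `e` was crossed by the path `γ` before time `t`. -/
def Used {V : Type} (γ : ℕ → V) (t : ℕ) (e : Sym2 V) : Prop := ∃ s < t, s(γ s, γ (s + 1)) = e

/-- Neighbours of `γ t` along edges not crossed before time `t`. -/
noncomputable def fresh {V : Type} (G : SimpleGraph V) [G.LocallyFinite] (γ : ℕ → V) (t : ℕ) :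
    Finset V :=
  (G.neighborFinset (γ t)).filter fun y => ¬ Used γ t s(γ t, y)

/-- The vertices among which the next position is uniform. -/
noncomputable def choices {V : Type} (G : SimpleGraph V) [G.LocallyFinite] (γ : ℕ → V) (t : ℕ) :
    Finset V :=
  if (fresh G γ t).Nonempty then fresh G γ t else G.neighborFinset (γ t)

/-- Transition probability to `y` given the history `γ 0, …, γ t`. -/
noncomputable def step {V : Type} (G : SimpleGraph V) [G.LocallyFinite] (γ : ℕ → V) (t : ℕ)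
    (y : V) : ℝ≥0∞ :=
  if y ∈ choices G γ t then ((choices G γ t).card : ℝ≥0∞)⁻¹ else 0

/-- `X` is a greedy random walk with the uniform rule on `G` started at `v₀`. -/
def IsGRW {V : Type} (G : SimpleGraph V) [G.LocallyFinite] (v₀ : V) {Ω : Type}
    [MeasurableSpace Ω] (P : Measure Ω) (X : ℕ → Ω → V) : Prop :=
  IsProbabilityMeasure P ∧ (∀ t v, MeasurableSet {ω | X t ω = v}) ∧ P {ω | X 0 ω = v₀} = 1 ∧
    ∀ (t : ℕ) (γ : ℕ → V) (y : V), P {ω | (∀ s ≤ t, X s ω = γ s) ∧ X (t + 1) ω = y} =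
      P {ω | ∀ s ≤ t, X s ω = γ s} * step G γ t y

variable {V : Type} {G : SimpleGraph V} [G.LocallyFinite]

def Loc {β : Type} (g : ℕ → (ℕ → V) → β) : Prop :=
  ∀ t γ γ', (∀ s ≤ t, γ s = γ' s) → g t γ = g t γ'

lemma lint_count {Ω α : Type} [MeasurableSpace Ω] [Countable α] (P : Measure Ω) (f : Ω → α)
    (hf : ∀ a, MeasurableSet (f ⁻¹' {a})) (F : α → ℝ≥0∞) :
    Measurable (fun ω => F (f ω)) ∧ ∫⁻ ω, F (f ω) ∂P = ∑' a, F a * P (f ⁻¹' {a}) := by
  letI : MeasurableSpace α := ⊤
  have hm : Measurable f := measurable_to_countable' hf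
  have hF : Measurable F := measurable_from_top
  refine ⟨hF.comp hm, ?_⟩
  rw [← lintegral_map hF hm, lintegral_countable']
  exact tsum_congr fun a => by rw [Measure.map_apply hm (MeasurableSet.singleton a)]

section
variable {Ω : Type} [MeasurableSpace Ω] {P : Measure Ω} {X : ℕ → Ω → V} {v₀ : V}

def hist (X : ℕ → Ω → V) (t : ℕ) (ω : Ω) : Fin (t + 1) → V := fun s => X s ω

def ext (v₀ : V) {t : ℕ} (η : Fin (t + 1) → V) : ℕ → V :=
  fun s => if h : s < t + 1 then η ⟨s, h⟩ else v₀

omit [MeasurableSpace Ω] in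
lemma hist_pre (t : ℕ) (η : Fin (t + 1) → V) :
    hist X t ⁻¹' {η} = {ω | ∀ s ≤ t, X s ω = ext v₀ η s} := by
  ext ω
  simp only [Set.mem_preimage, Set.mem_singleton_iff, Set.mem_setOf_eq]
  constructor
  · rintro rfl s hs
    simp [ext, hist, Nat.lt_succ_of_le hs]
  · intro h
    funext s
    have := h s (Nat.le_of_lt_succ s.2)
    simpa [ext, hist, s.2] using this

lemma hist_meas (h : IsGRW G v₀ P X) (t : ℕ) (η : Fin (t + 1) → V) :
    MeasurableSet (hist X t ⁻¹' {η}) := by
  rw [hist_pre (v₀ := v₀)]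
  have : {ω | ∀ s ≤ t, X s ω = ext v₀ η s} = ⋂ s, ⋂ _ : s ≤ t, {ω | X s ω = ext v₀ η s} := by
    ext ω; simp
  rw [this]
  exact MeasurableSet.iInter fun s => MeasurableSet.iInter fun _ => h.2.1 _ _

omit [MeasurableSpace Ω] in
lemma ext_hist (t : ℕ) (ω : Ω) : ∀ s ≤ t, X s ω = ext v₀ (hist X t ω) s := by
  intro s hs
  simp [ext, hist, Nat.lt_succ_of_le hs]

lemma g_meas [Countable V] (h : IsGRW G v₀ P X) {g : ℕ → (ℕ → V) → ℝ≥0∞} (hl : Loc g) (t : ℕ) :
    Measurable fun ω => g t (fun s => X s ω) := by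
  have := (lint_count P (hist X t) (hist_meas h t) (fun η => g t (ext v₀ η))).1
  convert this using 2 with ω
  exact hl _ _ _ (ext_hist t ω)

lemma mono [Countable V] (h : IsGRW G v₀ P X) {g : ℕ → (ℕ → V) → ℝ≥0∞} (hl : Loc g) (t : ℕ)
    (hs : ∀ γ, ∑ y ∈ choices G γ t, g (t + 1) (update γ (t + 1) y) ≤
      (choices G γ t).card * g t γ) :
    ∫⁻ ω, g (t + 1) (fun s => X s ω) ∂P ≤ ∫⁻ ω, g t (fun s => X s ω) ∂P := by
  have e1 : ∀ ω, g t (fun s => X s ω) = g t (ext v₀ (hist X t ω)) :=
    fun ω => hl _ _ _ (ext_hist t ω)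
  have e2 : ∀ ω, g (t + 1) (fun s => X s ω) =
      g (t + 1) (update (ext v₀ (hist X t ω)) (t + 1) (X (t + 1) ω)) := by
    intro ω
    refine hl _ _ _ fun s hs => ?_
    rcases Nat.lt_or_eq_of_le hs with h1 | rfl
    · rw [update_of_ne h1.ne]; exact ext_hist t ω s (Nat.le_of_lt_succ h1)
    · simp
  have pre : ∀ p : (Fin (t + 1) → V) × V, (fun ω => (hist X t ω, X (t + 1) ω)) ⁻¹' {p} =
      {ω | (∀ s ≤ t, X s ω = ext v₀ p.1 s) ∧ X (t + 1) ω = p.2} := by
    intro p
    ext ω
    have := Set.ext_iff.1 (hist_pre (X := X) (v₀ := v₀) t p.1) ω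
    simp only [Set.mem_preimage, Set.mem_singleton_iff, Set.mem_setOf_eq] at this ⊢
    rw [Prod.ext_iff, this]
  have m2 : ∀ p : (Fin (t + 1) → V) × V,
      MeasurableSet ((fun ω => (hist X t ω, X (t + 1) ω)) ⁻¹' {p}) := by
    intro p
    have : (fun ω => (hist X t ω, X (t + 1) ω)) ⁻¹' {p} =
        hist X t ⁻¹' {p.1} ∩ {ω | X (t + 1) ω = p.2} := by
      ext ω; simp [Prod.ext_iff]
    rw [this]
    exact (hist_meas h t _).inter (h.2.1 _ _)
  simp only [e1, e2]
  rw [(lint_count P (hist X t) (hist_meas h t) (fun η => g t (ext v₀ η))).2,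
    (lint_count P _ m2 (fun p => g (t + 1) (update (ext v₀ p.1) (t + 1) p.2))).2,
    ENNReal.tsum_prod']
  refine ENNReal.tsum_le_tsum fun η => ?_
  simp only [pre, h.2.2.2, hist_pre (v₀ := v₀)]
  set γ := ext v₀ η
  set q := P {ω | ∀ s ≤ t, X s ω = γ s}
  rw [tsum_eq_sum (s := choices G γ t) (fun y hy => by simp [step, hy])]
  have : ∑ y ∈ choices G γ t, g (t + 1) (update γ (t + 1) y) * (q * step G γ t y) =
      (∑ y ∈ choices G γ t, g (t + 1) (update γ (t + 1) y)) *
        (((choices G γ t).card : ℝ≥0∞)⁻¹ * q) := by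
    rw [Finset.sum_mul]
    refine Finset.sum_congr rfl fun y hy => ?_
    simp only [step, hy, if_true]; ring
  rw [this]
  calc _ ≤ ((choices G γ t).card * g t γ) * (((choices G γ t).card : ℝ≥0∞)⁻¹ * q) := by
        gcongr; exact hs γ
    _ = (((choices G γ t).card : ℝ≥0∞) * ((choices G γ t).card : ℝ≥0∞)⁻¹) * (g t γ * q) := by ring
    _ ≤ 1 * (g t γ * q) := by gcongr; exact ENNReal.mul_inv_le_one _
    _ = _ := one_mul _

lemma not_tendsto [Countable V] (h : IsGRW G v₀ P X) {g : ℕ → (ℕ → V) → ℝ} (hl : Loc g)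
    (h0 : ∀ t γ, 0 ≤ g t γ) (t0 : ℕ) (K : ℝ) (hK : ∀ γ, g t0 γ ≤ K)
    (hs : ∀ t, t0 ≤ t → ∀ γ, ∑ y ∈ choices G γ t, g (t + 1) (update γ (t + 1) y) ≤
      (choices G γ t).card * g t γ) :
    ∀ᵐ ω ∂P, ¬ Tendsto (fun t => g t (fun s => X s ω)) atTop atTop := by
  haveI := h.1
  set g' : ℕ → (ℕ → V) → ℝ≥0∞ := fun t γ => ENNReal.ofReal (g t γ)
  have hl' : Loc g' := fun t γ γ' e => by simp only [g', hl t γ γ' e]
  have hb : ∀ t, t0 ≤ t → ∫⁻ ω, g' t (fun s => X s ω) ∂P ≤ ENNReal.ofReal K := by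
    intro t ht
    induction t, ht using Nat.le_induction with
    | base =>
      calc _ ≤ ∫⁻ _, ENNReal.ofReal K ∂P :=
            lintegral_mono fun ω => ENNReal.ofReal_le_ofReal (hK _)
        _ = _ := by simp
    | succ t ht ih =>
      refine (mono h hl' t fun γ => ?_).trans ih
      simp only [g']
      rw [← ENNReal.ofReal_sum_of_nonneg (fun _ _ => h0 _ _), ← ENNReal.ofReal_natCast,
        ← ENNReal.ofReal_mul (Nat.cast_nonneg _)]
      exact ENNReal.ofReal_le_ofReal (hs t ht γ)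
  have fat := lintegral_liminf_le (μ := P) (u := atTop)
    (f := fun t ω => g' t (fun s => X s ω)) (fun t => g_meas h hl' t)
  have hle : liminf (fun t => ∫⁻ ω, g' t (fun s => X s ω) ∂P) atTop ≤ ENNReal.ofReal K :=
    liminf_le_of_frequently_le' (((eventually_ge_atTop t0).mono hb).frequently)
  have hfin := ae_lt_top (μ := P) (Measurable.liminf fun t => g_meas h hl' t)
    (ne_top_of_le_ne_top ENNReal.ofReal_ne_top (fat.trans hle))
  filter_upwards [hfin] with ω hω ht
  have : Tendsto (fun t => g' t (fun s => X s ω)) atTop (𝓝 ⊤) :=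
    ENNReal.tendsto_ofReal_atTop.comp ht
  rw [this.liminf_eq] at hω
  exact lt_irrefl _ hω

lemma used_upd (γ : ℕ → V) (t : ℕ) (y : V) (e : Sym2 V) :
    Used (update γ (t + 1) y) (t + 1) e ↔ Used γ t e ∨ s(γ t, y) = e := by
  constructor
  · rintro ⟨s, hs, rfl⟩
    rcases Nat.lt_or_eq_of_le (Nat.le_of_lt_succ hs) with h1 | rfl
    · left
      exact ⟨s, h1, by rw [update_of_ne (by omega), update_of_ne (by omega)]⟩
    · right
      rw [update_of_ne (by omega), update_self]
  · rintro (⟨s, hs, rfl⟩ | rfl)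
    · exact ⟨s, by omega, by rw [update_of_ne (by omega), update_of_ne (by omega)]⟩
    · exact ⟨t, by omega, by rw [update_of_ne (by omega), update_self]⟩

lemma used_loc {γ γ' : ℕ → V} {t : ℕ} (h : ∀ s ≤ t, γ s = γ' s) : Used γ t = Used γ' t := by
  funext e
  apply propext
  constructor
  · rintro ⟨s, hs, rfl⟩; exact ⟨s, hs, by rw [h s hs.le, h (s + 1) hs]⟩
  · rintro ⟨s, hs, rfl⟩; exact ⟨s, hs, by rw [h s hs.le, h (s + 1) hs]⟩

lemma sum_le_of_le {s : Finset V} {f : V → ℝ} {c : ℝ} (h : ∀ y ∈ s, f y ≤ c) :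
    ∑ y ∈ s, f y ≤ s.card * c := by
  simpa using Finset.sum_le_card_nsmul s f c h

lemma nbr_io [Countable V] (h : IsGRW G v₀ P X) {v u : V} (huv : G.Adj v u) :
    ∀ᵐ ω ∂P, {t | X t ω = v}.Infinite → {t | X t ω = u}.Infinite := by
  set d : ℕ := (G.neighborFinset v).card with hd
  have hu : u ∈ G.neighborFinset v := by simpa using huv
  have d1 : 1 ≤ d := Finset.card_pos.2 ⟨u, hu⟩
  have d1' : (1 : ℝ) ≤ d := by exact_mod_cast d1
  set l : ℝ := 1 + (d : ℝ)⁻¹ with hlam
  have l1 : 1 < l := by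
    have : (0 : ℝ) < (d : ℝ)⁻¹ := by positivity
    linarith
  let cnt : ℕ → (ℕ → V) → ℕ := fun t γ => ((Finset.range t).filter fun s => γ s = v).card
  let fr : ℕ → (ℕ → V) → ℕ := fun t γ =>
    ((G.neighborFinset v).filter fun y => ¬ Used γ t s(v, y)).card
  let g : ℕ → ℕ → (ℕ → V) → ℝ := fun t0 t γ =>
    if ∀ s, t0 ≤ s → s ≤ t → γ s ≠ u then l ^ (cnt t γ + fr t γ) else 0
  have key : ∀ t0 : ℕ, ∀ᵐ ω ∂P, ¬ Tendsto (fun t => g t0 t (fun s => X s ω)) atTop atTop := by
    intro t0
    refine not_tendsto h (g := g t0) ?_ ?_ t0 (l ^ (t0 + d)) ?_ ?_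
    · intro t γ γ' e
      have e1 : cnt t γ = cnt t γ' := by
        simp only [cnt]
        congr 1
        exact Finset.filter_congr fun s hs => by rw [e s (Finset.mem_range.1 hs).le]
      have e2 : fr t γ = fr t γ' := by simp only [fr, used_loc e]
      have e3 : (∀ s, t0 ≤ s → s ≤ t → γ s ≠ u) ↔ ∀ s, t0 ≤ s → s ≤ t → γ' s ≠ u :=
        forall_congr' fun s => forall_congr' fun _ => forall_congr' fun hs => by rw [e s hs]
      simp only [g, e1, e2, e3]
    · intro t γ
      dsimp only [g]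
      split_ifs
      · positivity
      · exact le_rfl
    · intro γ
      dsimp only [g]
      split_ifs
      · refine pow_le_pow_right₀ l1.le (add_le_add ?_ (Finset.card_filter_le _ _))
        simpa using Finset.card_filter_le (Finset.range t0) fun s => γ s = v
      · positivity
    · intro t ht γ
      dsimp only [g]
      have hc : ∀ y, cnt (t + 1) (update γ (t + 1) y) = cnt t γ + if γ t = v then 1 else 0 := by
        intro y
        simp only [cnt]
        rw [Finset.filter_congr (q := fun s => γ s = v) (fun s hs => by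
          rw [update_of_ne (by have := Finset.mem_range.1 hs; omega)]), Finset.range_add_one,
          Finset.filter_insert]
        split_ifs
        · rw [Finset.card_insert_of_notMem (by simp)]
        · rfl
      have hsub : ∀ y, ((G.neighborFinset v).filter fun z =>
          ¬ Used (update γ (t + 1) y) (t + 1) s(v, z)) ⊆
          (G.neighborFinset v).filter fun z => ¬ Used γ t s(v, z) := by
        intro y z hz
        simp only [Finset.mem_filter, used_upd, not_or] at hz ⊢
        exact ⟨hz.1, hz.2.1⟩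
      have hf : ∀ y, fr (t + 1) (update γ (t + 1) y) ≤ fr t γ :=
        fun y => Finset.card_le_card (hsub y)
      by_cases hA : ∀ s, t0 ≤ s → s ≤ t → γ s ≠ u
      swap
      · rw [if_neg hA, mul_zero]
        refine (Finset.sum_eq_zero fun y _ => if_neg fun hB => hA fun s h1 h2 => ?_).le
        have := hB s h1 (by omega)
        rwa [update_of_ne (by omega)] at this
      rw [if_pos hA]
      have bd : ∀ y (k : ℕ), cnt (t + 1) (update γ (t + 1) y) + fr (t + 1) (update γ (t + 1) y)
          ≤ k → (if ∀ s, t0 ≤ s → s ≤ t + 1 → update γ (t + 1) y s ≠ u then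
            l ^ (cnt (t + 1) (update γ (t + 1) y) + fr (t + 1) (update γ (t + 1) y)) else 0)
            ≤ l ^ k := by
        intro y k hk
        split_ifs
        · exact pow_le_pow_right₀ l1.le hk
        · positivity
      by_cases hv : γ t = v
      swap
      · refine sum_le_of_le fun y _ => bd y _ ?_
        have := hf y
        rw [hc, if_neg hv]; omega
      by_cases hne : (fresh G γ t).Nonempty
      · refine sum_le_of_le fun y hy => bd y _ ?_
        rw [choices, if_pos hne, fresh, hv] at hy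
        have : fr (t + 1) (update γ (t + 1) y) < fr t γ := by
          refine Finset.card_lt_card ⟨hsub y, fun hh => ?_⟩
          have := hh hy
          simp [used_upd, hv] at this
        rw [hc, if_pos hv]; omega
      · rw [choices, if_neg hne, hv, ← Finset.add_sum_erase _ _ hu, if_neg (fun hB => by
          have := hB (t + 1) (by omega) le_rfl
          simp at this), zero_add]
        refine (sum_le_of_le (c := l ^ (cnt t γ + fr t γ + 1)) fun y _ => bd y _ ?_).trans ?_
        · have := hf y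
          rw [hc, if_pos hv]; omega
        · rw [Finset.card_erase_of_mem hu, ← hd, Nat.cast_sub d1, pow_succ]
          have : ((d : ℝ) - 1) * l ≤ d := by
            have e : (d : ℝ) * (d : ℝ)⁻¹ = 1 := mul_inv_cancel₀ (by positivity)
            have : (0 : ℝ) < (d : ℝ)⁻¹ := by positivity
            rw [hlam]; nlinarith
          have hp : 0 < l ^ (cnt t γ + fr t γ) := by positivity
          push_cast
          nlinarith
  filter_upwards [ae_all_iff.2 key] with ω hω hv
  by_contra hfin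
  rw [Set.not_infinite] at hfin
  obtain ⟨b, hb⟩ := hfin.bddAbove
  refine hω (b + 1) ?_
  have hcnt : Tendsto (fun t => cnt t fun s => X s ω) atTop atTop := by
    refine tendsto_atTop_atTop.2 fun k => ?_
    obtain ⟨T, hT, hk⟩ := hv.exists_subset_card_eq k
    refine ⟨T.sup id + 1, fun t ht => ?_⟩
    rw [← hk]
    refine Finset.card_le_card fun s hs => ?_
    have := Finset.le_sup (f := id) hs
    simp only [Finset.mem_filter, Finset.mem_range, id] at this ⊢
    exact ⟨by omega, hT hs⟩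
  refine tendsto_atTop_mono (fun t => ?_) ((tendsto_pow_atTop_atTop_of_one_lt l1).comp hcnt)
  dsimp only [Function.comp, g]
  rw [if_pos fun s h1 _ hs => by have := hb (show s ∈ {t | X t ω = u} from hs); omega]
  exact pow_le_pow_right₀ l1.le (Nat.le_add_right _ _)

theorem recur [Countable V] (h : IsGRW G v₀ P X) (hG : G.Preconnected)
    (Inv : ℕ → (ℕ → V) → Prop) (Φ : ℕ → (ℕ → V) → ℝ) (lI : Loc Inv) (lΦ : Loc Φ)
    (ha : ∀ γ, γ 0 = v₀ → Inv 0 γ)
    (hb : ∀ t γ, Inv t γ → ∀ y ∈ choices G γ t, Inv (t + 1) (update γ (t + 1) y))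
    (hc : ∀ t γ, Inv t γ → γ t ≠ v₀ → ∑ y ∈ choices G γ t, Φ (t + 1) (update γ (t + 1) y) ≤
      (choices G γ t).card * Φ t γ)
    (hd : ∀ t γ, Inv t γ → 0 ≤ Φ t γ)
    (he : ∀ K : ℝ, ∃ W : Set V, W.Finite ∧ ∀ t γ, Inv t γ → γ t ∉ W → K ≤ Φ t γ) :
    ∀ᵐ ω ∂P, {t | X t ω = v₀}.Infinite := by
  haveI := h.1
  have h1 : ∀ t, ∀ᵐ ω ∂P, Inv t fun s => X s ω := by
    set g : ℕ → (ℕ → V) → ℝ≥0∞ := fun t γ => if Inv t γ then 0 else 1
    have hl : Loc g := fun t γ γ' e => by simp only [g, lI t γ γ' e]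
    have hz : ∀ t, ∫⁻ ω, g t (fun s => X s ω) ∂P = 0 := by
      intro t
      induction t with
      | zero =>
        refine lintegral_eq_zero_of_ae_eq_zero ?_
        have := (mem_ae_iff_prob_eq_one (h.2.1 0 v₀)).2 h.2.2.1
        filter_upwards [this] with ω hω
        simp only [g]
        rw [if_pos (ha _ hω)]; rfl
      | succ t ih =>
        refine le_antisymm ((mono h hl t fun γ => ?_).trans ih.le) zero_le
        by_cases hI : Inv t γ
        · rw [Finset.sum_eq_zero fun y hy => if_pos (hb t γ hI y hy)]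
          exact zero_le
        · simp only [g, if_neg hI, mul_one]
          refine (Finset.sum_le_card_nsmul _ _ 1 fun y _ => ?_).trans (by simp)
          split_ifs <;> simp
    intro t
    filter_upwards [(lintegral_eq_zero_iff (g_meas h hl t)).1 (hz t)] with ω hω
    by_contra hn
    simp [g, hn] at hω
  let g : ℕ → ℕ → ℕ → (ℕ → V) → ℝ := fun t0 K t γ =>
    if (∀ s ≤ t, Inv s γ) ∧ Φ (min t0 t) γ ≤ K ∧ ∀ s, t0 ≤ s → s < t → γ s ≠ v₀ then Φ t γ else 0
  have h2 : ∀ t0 K : ℕ, ∀ᵐ ω ∂P,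
      ¬ Tendsto (fun t => g t0 K t (fun s => X s ω)) atTop atTop := by
    intro t0 K
    refine not_tendsto h (g := g t0 K) ?_ ?_ t0 K ?_ ?_
    · intro t γ γ' e
      have e1 : (∀ s ≤ t, Inv s γ) ↔ ∀ s ≤ t, Inv s γ' :=
        forall_congr' fun s => forall_congr' fun hs => by
          rw [lI s γ γ' fun r hr => e r (hr.trans hs)]
      have e2 : Φ (min t0 t) γ = Φ (min t0 t) γ' :=
        lΦ _ _ _ fun r hr => e r (hr.trans (min_le_right _ _))
      have e3 : (∀ s, t0 ≤ s → s < t → γ s ≠ v₀) ↔ ∀ s, t0 ≤ s → s < t → γ' s ≠ v₀ :=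
        forall_congr' fun s => forall_congr' fun _ => forall_congr' fun hs => by rw [e s hs.le]
      simp only [g, e1, e2, e3, lΦ t γ γ' e]
    · intro t γ
      dsimp only [g]
      split_ifs with hh
      · exact hd _ _ (hh.1 t le_rfl)
      · exact le_rfl
    · intro γ
      dsimp only [g]
      split_ifs with hh
      · simpa using hh.2.1
      · positivity
    · intro t ht γ
      dsimp only [g]
      have up : ∀ y s, s ≤ t → ∀ r ≤ s, update γ (t + 1) y r = γ r :=
        fun y s hs r hr => update_of_ne (by omega) _ _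
      by_cases hA : ((∀ s ≤ t, Inv s γ) ∧ Φ (min t0 t) γ ≤ K ∧
        ∀ s, t0 ≤ s → s < t → γ s ≠ v₀) ∧ γ t ≠ v₀
      · rw [if_pos hA.1]
        refine le_trans (Finset.sum_le_sum fun y hy => ?_) (hc t γ (hA.1.1 t le_rfl) hA.2)
        split_ifs
        · exact le_rfl
        · exact hd _ _ (hb t γ (hA.1.1 t le_rfl) y hy)
      · rw [Finset.sum_eq_zero fun y _ => if_neg fun hB => hA ?_]
        · split_ifs with hh
          · exact mul_nonneg (Nat.cast_nonneg _) (hd _ _ (hh.1 t le_rfl))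
          · simp
        · refine ⟨⟨fun s hs => ?_, ?_, fun s h1 h2 => ?_⟩, ?_⟩
          · rw [← lI s _ _ (up y s hs)]; exact hB.1 s (by omega)
          · have := hB.2.1
            rw [min_eq_left (by omega)] at this
            rw [min_eq_left ht, ← lΦ t0 _ _ (up y t0 ht)]; exact this
          · rw [← up y s h2.le s le_rfl]; exact hB.2.2 s h1 (by omega)
          · rw [← up y t le_rfl t le_rfl]; exact hB.2.2 t ht (by omega)
  have h3 : ∀ v u, ∀ᵐ ω ∂P, G.Adj v u → {t | X t ω = v}.Infinite → {t | X t ω = u}.Infinite := by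
    intro v u
    by_cases huv : G.Adj v u
    · filter_upwards [nbr_io h huv] with ω hω _ using hω
    · exact Eventually.of_forall fun ω hh => absurd hh huv
  filter_upwards [ae_all_iff.2 h1, ae_all_iff.2 fun t0 => ae_all_iff.2 (h2 t0),
    ae_all_iff.2 fun v => ae_all_iff.2 (h3 v)] with ω a1 a2 a3
  by_contra hfin
  have all : ∀ v, {t | X t ω = v}.Finite := by
    intro v
    by_contra hv
    obtain ⟨w⟩ := hG v v₀
    have : ∀ {a b : V} (_ : G.Walk a b), {t | X t ω = a}.Infinite → {t | X t ω = b}.Infinite := by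
      intro a b w
      induction w with
      | nil => exact id
      | cons hab _ ih => exact fun ha => ih (a3 _ _ hab ha)
    exact hfin (this w hv)
  obtain ⟨b, hb'⟩ := (all v₀).bddAbove
  obtain ⟨K, hK⟩ := exists_nat_ge (Φ (b + 1) fun s => X s ω)
  refine a2 (b + 1) K (tendsto_atTop_atTop.2 fun C => ?_)
  obtain ⟨W, hW, hW'⟩ := he C
  obtain ⟨b2, hb2⟩ := (hW.biUnion fun v _ => all v).bddAbove
  refine ⟨b + b2 + 1, fun t ht => ?_⟩
  dsimp only [g]
  rw [if_pos ⟨fun s _ => a1 s, by rwa [min_eq_left (by omega)], fun s h1 _ hs => by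
    have := hb' (show s ∈ {t | X t ω = v₀} from hs); omega⟩]
  refine hW' _ _ (a1 t) fun hm => ?_
  have := hb2 (Set.mem_biUnion hm (show t ∈ {s | X s ω = X t ω} from rfl))
  omega
end

end Pool.Agent.H.GRW
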