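import Pool.Agent.H.MP_4770bc_pr.A

/-! Existence of the greedy random walk. -/

namespace Pool.Agent.H.GRW

open MeasureTheory Filter Function
open scoped ENNReal Classical Topology

variable {V : Type} {G : SimpleGraph V} [G.LocallyFinite]

lemma choices_loc {γ γ' : ℕ → V} {t : ℕ} (h : ∀ s ≤ t, γ s = γ' s) :
    choices G γ t = choices G γ' t := by
  unfold choices fresh
  rw [used_loc h, h t le_rfl]

def LL (γ : ℕ → V) : ℕ → List V
  | 0 => [γ 0]
  | t + 1 => γ (t + 1) :: LL γ t

def HH (v₀ : V) (ω : List V → V) : ℕ → List V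
  | 0 => [v₀]
  | t + 1 => ω (HH v₀ ω t) :: HH v₀ ω t

lemma LL_len (γ : ℕ → V) (t : ℕ) : (LL γ t).length = t + 1 := by
  induction t with
  | zero => rfl
  | succ t ih => simp [LL, ih]

lemma LL_get (v₀ : V) (γ : ℕ → V) (t : ℕ) : ∀ s ≤ t, (LL γ t).reverse.getD s v₀ = γ s := by
  induction t with
  | zero => intro s hs; obtain rfl : s = 0 := by omega
            simp [LL]
  | succ t ih =>
    intro s hs
    rcases Nat.lt_or_eq_of_le hs with h1 | rfl
    · rw [LL, List.reverse_cons, List.getD_append _ _ _ _ (by simp [LL_len]; omega)]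
      exact ih s (by omega)
    · rw [LL, List.reverse_cons, List.getD_append_right _ _ _ _ (by simp [LL_len])]
      simp [LL_len]

lemma LL_loc {γ γ' : ℕ → V} (t : ℕ) (h : ∀ s ≤ t, γ s = γ' s) : LL γ t = LL γ' t := by
  induction t with
  | zero => simp [LL, h 0 le_rfl]
  | succ t ih => simp [LL, h _ le_rfl, ih fun s hs => h s (by omega)]

lemma HH_eq (v₀ : V) (ω : List V → V) (t : ℕ) :
    HH v₀ ω t = LL (fun s => (HH v₀ ω s).headD v₀) t := by
  induction t with
  | zero => rfl
  | succ t ih => rw [LL, ← ih]; rfl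

lemma HH_iff (v₀ : V) (ω : List V → V) (γ : ℕ → V) (t : ℕ) :
    (∀ s ≤ t, (HH v₀ ω s).headD v₀ = γ s) ↔ γ 0 = v₀ ∧ ∀ s < t, ω (LL γ s) = γ (s + 1) := by
  induction t with
  | zero => simp [HH, eq_comm]
  | succ t ih =>
    have e : (∀ s ≤ t, (HH v₀ ω s).headD v₀ = γ s) → HH v₀ ω t = LL γ t := fun h => by
      rw [HH_eq]; exact LL_loc t h
    constructor
    · intro h
      have h' := ih.1 fun s hs => h s (by omega)
      refine ⟨h'.1, fun s hs => ?_⟩
      rcases Nat.lt_or_eq_of_le (Nat.le_of_lt_succ hs) with h1 | rfl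
      · exact h'.2 s h1
      · rw [← e fun s hs => h s (by omega), ← h _ le_rfl]; rfl
    · rintro ⟨h0, h⟩ s hs
      have h' := ih.2 ⟨h0, fun s hs => h s (by omega)⟩
      rcases Nat.lt_or_eq_of_le hs with h1 | rfl
      · exact h' s (by omega)
      · rw [← h t (by omega), ← e h']; rfl

theorem exists_grw [Countable V] (hdeg : ∀ v, (G.neighborFinset v).Nonempty) (v₀ : V) :
    ∃ (Ω : Type) (_ : MeasurableSpace Ω) (P : Measure Ω) (X : ℕ → Ω → V), IsGRW G v₀ P X := by
  letI : MeasurableSpace V := ⊤
  have hne : ∀ γ t, (choices G γ t).Nonempty := by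
    intro γ t
    unfold choices
    split_ifs with h
    · exact h
    · exact hdeg _
  let μ : List V → Measure V := fun l =>
    (PMF.uniformOfFinset _ (hne (fun s => l.reverse.getD s v₀) (l.length - 1))).toMeasure
  have hμ : ∀ γ t y, μ (LL γ t) {y} = step G γ t y := by
    intro γ t y
    simp only [μ]
    rw [PMF.toMeasure_apply_singleton _ _ (MeasurableSet.singleton y), PMF.uniformOfFinset_apply]
    simp only [LL_len, Nat.add_sub_cancel, step, choices_loc (LL_get v₀ γ t)]
  have cyl : ∀ (γ : ℕ → V) t, Measure.infinitePi μ {ω | ∀ s < t, ω (LL γ s) = γ (s + 1)} =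
      ∏ s ∈ Finset.range t, step G γ s (γ (s + 1)) := by
    intro γ t
    have inj : Injective (LL γ) := fun a b h => by
      have := congrArg List.length h
      simpa [LL_len] using this
    have : {ω : List V → V | ∀ s < t, ω (LL γ s) = γ (s + 1)} =
        Set.pi ((Finset.range t).image (LL γ)) fun l => {γ l.length} := by
      ext ω; simp [LL_len]
    rw [this, Measure.infinitePi_pi μ fun _ _ => MeasurableSet.singleton _,
      Finset.prod_image inj.injOn]
    simp only [LL_len, hμ]
  have mH : ∀ t l, MeasurableSet {ω : List V → V | HH v₀ ω t = l} := by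
    intro t
    induction t with
    | zero => intro l; simp only [HH]; exact MeasurableSet.const _
    | succ t ih =>
      intro l
      have : {ω : List V → V | HH v₀ ω (t + 1) = l} =
          ⋃ l', {ω | HH v₀ ω t = l'} ∩ (fun ω => ω l') ⁻¹' {y | y :: l' = l} := by
        ext ω; simp [HH]
      rw [this]
      exact MeasurableSet.iUnion fun l' =>
        (ih l').inter (measurable_pi_apply l' MeasurableSpace.measurableSet_top)
  refine ⟨List V → V, inferInstance, Measure.infinitePi μ, fun t ω => (HH v₀ ω t).headD v₀,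
    inferInstance, fun t v => ?_, by simp [HH], fun t γ y => ?_⟩
  · have : {ω : List V → V | (HH v₀ ω t).headD v₀ = v} =
        ⋃ l, ⋃ _ : l.headD v₀ = v, {ω | HH v₀ ω t = l} := by
      ext ω; simp
    rw [this]
    exact MeasurableSet.iUnion fun l => MeasurableSet.iUnion fun _ => mH t l
  · have up : ∀ s ≤ t, update γ (t + 1) y s = γ s := fun s hs => update_of_ne (by omega) _ _
    have e : {ω : List V → V | (∀ s ≤ t, (HH v₀ ω s).headD v₀ = γ s) ∧
        (HH v₀ ω (t + 1)).headD v₀ = y} =
        {ω | ∀ s ≤ t + 1, (HH v₀ ω s).headD v₀ = update γ (t + 1) y s} := by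
      ext ω
      simp only [Set.mem_setOf_eq]
      constructor
      · rintro ⟨h1, h2⟩ s hs
        rcases Nat.lt_or_eq_of_le hs with h | rfl
        · rw [up s (by omega)]; exact h1 s (by omega)
        · rw [update_self]; exact h2
      · intro h
        exact ⟨fun s hs => by rw [← up s hs]; exact h s (by omega), by
          have := h _ le_rfl
          rwa [update_self] at this⟩
    rw [e]
    simp only [HH_iff]
    rw [up 0 (by omega)]
    by_cases h0 : γ 0 = v₀
    · simp only [h0, true_and, cyl]
      rw [Finset.prod_range_succ, update_self]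
      congr 1
      · refine Finset.prod_congr rfl fun s hs => ?_
        have := Finset.mem_range.1 hs
        simp only [step, choices_loc (G := G) (fun r hr => up r (hr.trans this.le)), up (s + 1) this]
      · simp only [step, choices_loc (G := G) up]
    · simp [h0]

end Pool.Agent.H.GRW
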