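import Pool.Agent.H.MP_4770bc_pr.B

/-! Subdivided multigraphs: reduction of the supermartingale criterion to junctions. -/

namespace Pool.Agent.H.GRW

open MeasureTheory Filter Function
open scoped ENNReal Classical Topology

structure Net (J S : Type) where
  u : S → J
  v : S → J
  len : S → ℕ
  two : ∀ s, 2 ≤ len s
  ne : ∀ s, u s ≠ v s
  inc : J → Finset S
  mem : ∀ j s, s ∈ inc j ↔ u s = j ∨ v s = j

namespace Net
variable {J S : Type} (N : Net J S)

abbrev Vx := J ⊕ {q : S × ℕ // 0 < q.2 ∧ q.2 < N.len q.1}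

noncomputable def pt (s : S) (k : ℕ) : N.Vx :=
  if h : 0 < k ∧ k < N.len s then .inr ⟨(s, k), h⟩ else if k = 0 then .inl (N.u s) else .inl (N.v s)

lemma pt_zero (s : S) : N.pt s 0 = .inl (N.u s) := by simp [pt]
lemma pt_len (s : S) : N.pt s (N.len s) = .inl (N.v s) := by
  have := N.two s
  simp only [pt, lt_irrefl, and_false, dite_false]
  rw [if_neg (by omega)]
lemma pt_in {s : S} {k : ℕ} (h : 0 < k ∧ k < N.len s) : N.pt s k = .inr ⟨(s, k), h⟩ := by
  simp [pt, h]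

lemma pt_cases (s : S) {k : ℕ} (hk : k ≤ N.len s) :
    (k = 0 ∧ N.pt s k = .inl (N.u s)) ∨ (k = N.len s ∧ N.pt s k = .inl (N.v s)) ∨
      ∃ h : 0 < k ∧ k < N.len s, N.pt s k = .inr ⟨(s, k), h⟩ := by
  rcases Nat.eq_zero_or_pos k with rfl | h0
  · exact .inl ⟨rfl, N.pt_zero s⟩
  rcases Nat.lt_or_eq_of_le hk with h1 | rfl
  · exact .inr (.inr ⟨⟨h0, h1⟩, N.pt_in _⟩)
  · exact .inr (.inl ⟨rfl, N.pt_len s⟩)

lemma pt_inj {s : S} {k k' : ℕ} (hk : k ≤ N.len s) (hk' : k' ≤ N.len s)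
    (h : N.pt s k = N.pt s k') : k = k' := by
  have := N.ne s
  rcases N.pt_cases s hk with ⟨a, b⟩ | ⟨a, b⟩ | ⟨a, b⟩ <;>
    rcases N.pt_cases s hk' with ⟨c, d⟩ | ⟨c, d⟩ | ⟨c, d⟩ <;> rw [b, d] at h <;>
    first | omega | simp_all

lemma pt_seg {s s' : S} {k k' : ℕ} (hk : 0 < k ∧ k < N.len s) (hk' : k' ≤ N.len s')
    (h : N.pt s k = N.pt s' k') : s = s' := by
  rw [N.pt_in hk] at h
  rcases N.pt_cases s' hk' with ⟨c, d⟩ | ⟨c, d⟩ | ⟨c, d⟩ <;> rw [d] at h <;> simp_all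

noncomputable def E (s : S) (k : ℕ) : Sym2 N.Vx := s(N.pt s k, N.pt s (k + 1))

lemma E_inj {s s' : S} {k k' : ℕ} (hk : k < N.len s) (hk' : k' < N.len s')
    (h : N.E s k = N.E s' k') : s = s' ∧ k = k' := by
  have h2 := N.two s
  simp only [E, Sym2.eq_iff] at h
  have hs : s = s' := by
    rcases Nat.eq_zero_or_pos k with rfl | h0
    · rcases h with h | h
      · exact N.pt_seg ⟨by omega, by omega⟩ hk' h.2
      · exact N.pt_seg ⟨by omega, by omega⟩ hk'.le h.2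
    · rcases h with h | h
      · exact N.pt_seg ⟨h0, hk⟩ hk'.le h.1
      · exact N.pt_seg ⟨h0, hk⟩ hk' h.1
  subst hs
  refine ⟨rfl, ?_⟩
  rcases h with h | h
  · exact N.pt_inj hk.le hk'.le h.1
  · have := N.pt_inj hk.le hk' h.1
    have := N.pt_inj hk hk'.le h.2
    omega

def gr : SimpleGraph N.Vx where
  Adj a b := ∃ s k, k < N.len s ∧
    ((a = N.pt s k ∧ b = N.pt s (k + 1)) ∨ (b = N.pt s k ∧ a = N.pt s (k + 1)))
  symm := ⟨fun _ _ ⟨s, k, hk, h⟩ => ⟨s, k, hk, h.symm⟩⟩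
  loopless := ⟨fun _ ⟨s, k, hk, h⟩ => by
    have : N.pt s k = N.pt s (k + 1) := by rcases h with h | h <;> rw [← h.1, ← h.2]
    have := N.pt_inj hk.le hk this
    omega⟩

noncomputable def nxt (j : J) (s : S) : N.Vx :=
  if N.u s = j then N.pt s 1 else N.pt s (N.len s - 1)

noncomputable def other (s : S) (j : J) : J := if N.u s = j then N.v s else N.u s

lemma adj_inl (j : J) (b : N.Vx) : N.gr.Adj (.inl j) b ↔ b ∈ (N.inc j).image (N.nxt j) := by
  simp only [Finset.mem_image, N.mem]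
  constructor
  · rintro ⟨s, k, hk, ⟨h1, h2⟩ | ⟨h1, h2⟩⟩
    · rcases N.pt_cases s hk.le with ⟨c, d⟩ | ⟨c, d⟩ | ⟨c, d⟩
      · rw [d] at h1
        obtain rfl : j = N.u s := by simpa using h1
        exact ⟨s, .inl rfl, by simp [nxt, h2, c]⟩
      · omega
      · rw [d] at h1; simp at h1
    · rcases N.pt_cases s (show k + 1 ≤ _ from hk) with ⟨c, d⟩ | ⟨c, d⟩ | ⟨c, d⟩
      · omega
      · rw [d] at h2
        obtain rfl : j = N.v s := by simpa using h2
        exact ⟨s, .inr rfl, by simp [nxt, h1, N.ne s, ← c]⟩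
      · rw [d] at h2; simp at h2
  · rintro ⟨s, hs, rfl⟩
    have h2 := N.two s
    by_cases h : N.u s = j
    · exact ⟨s, 0, by omega, .inl ⟨by rw [N.pt_zero, h], by simp [nxt, h]⟩⟩
    · refine ⟨s, N.len s - 1, by omega, .inr ⟨by simp [nxt, h], ?_⟩⟩
      rw [Nat.sub_add_cancel (by omega), N.pt_len, hs.resolve_left h]

lemma adj_in {s : S} {k : ℕ} (h : 0 < k ∧ k < N.len s) (b : N.Vx) :
    N.gr.Adj (N.pt s k) b ↔ b ∈ ({N.pt s (k - 1), N.pt s (k + 1)} : Finset N.Vx) := by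
  simp only [Finset.mem_insert, Finset.mem_singleton]
  constructor
  · rintro ⟨s', k', hk, ⟨h1, h2⟩ | ⟨h1, h2⟩⟩
    · obtain rfl := N.pt_seg h hk.le h1
      obtain rfl := N.pt_inj h.2.le hk.le h1
      exact .inr h2
    · obtain rfl := N.pt_seg h hk h2
      obtain rfl := N.pt_inj h.2.le hk h2
      exact .inl h1
  · rintro (rfl | rfl)
    · exact ⟨s, k - 1, by omega, .inr ⟨rfl, by rw [Nat.sub_add_cancel h.1]⟩⟩
    · exact ⟨s, k, h.2, .inl ⟨rfl, rfl⟩⟩

noncomputable instance lf : N.gr.LocallyFinite := fun a => Set.Finite.fintype (by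
  rcases a with j | ⟨⟨s, k⟩, h⟩
  · exact (Finset.finite_toSet _).subset fun b hb => (N.adj_inl j b).1 hb
  · rw [← N.pt_in h]
    exact (Finset.finite_toSet _).subset fun b hb => (N.adj_in h b).1 hb)

lemma nb_inl (j : J) : N.gr.neighborFinset (.inl j) = (N.inc j).image (N.nxt j) := by
  ext b; rw [SimpleGraph.mem_neighborFinset, adj_inl]

lemma nb_in {s : S} {k : ℕ} (h : 0 < k ∧ k < N.len s) :
    N.gr.neighborFinset (N.pt s k) = {N.pt s (k - 1), N.pt s (k + 1)} := by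
  ext b; rw [SimpleGraph.mem_neighborFinset, N.adj_in h]

lemma nxt_inj (j : J) : Injective (N.nxt j) := by
  intro s s' h
  have h1 := N.two s
  have h2 := N.two s'
  unfold nxt at h
  split_ifs at h <;> exact N.pt_seg ⟨by omega, by omega⟩ (by omega) h

lemma pm_ne {s : S} {k : ℕ} (h : 0 < k ∧ k < N.len s) : N.pt s (k - 1) ≠ N.pt s (k + 1) :=
  fun e => by have := N.pt_inj (by omega) h.2 e; omega

def sig (H : Sym2 N.Vx → Prop) : Set S := {s | ∃ k < N.len s, H (N.E s k)}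
def Full (H : Sym2 N.Vx → Prop) (s : S) : Prop := ∀ k < N.len s, H (N.E s k)
def Emp (H : Sym2 N.Vx → Prop) (s : S) : Prop := ∀ k < N.len s, ¬ H (N.E s k)

def InvS (Val : Set S → J → Prop) (H : Sym2 N.Vx → Prop) (x : N.Vx) : Prop :=
  (∃ j, x = .inl j ∧ (∀ s, N.Full H s ∨ N.Emp H s) ∧ Val (N.sig H) j) ∨
  ∃ s k, (0 < k ∧ k < N.len s) ∧ x = N.pt s k ∧ (∀ s' ≠ s, N.Full H s' ∨ N.Emp H s') ∧
    ((N.Full H s ∧ Val (N.sig H) (N.u s) ∧ Val (N.sig H) (N.v s)) ∨
     ((∀ i < N.len s, H (N.E s i) ↔ i < k) ∧ Val (N.sig H) (N.v s)) ∨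
     ((∀ i < N.len s, H (N.E s i) ↔ k ≤ i) ∧ Val (N.sig H) (N.u s)))

noncomputable def lin (Ψ : Set S → J → ℝ) (σ : Set S) (s : S) (k : ℕ) : ℝ :=
  Ψ σ (N.u s) + k / N.len s * (Ψ σ (N.v s) - Ψ σ (N.u s))

noncomputable def PhiS (Ψ : Set S → J → ℝ) (H : Sym2 N.Vx → Prop) : N.Vx → ℝ
  | .inl j => Ψ (N.sig H) j
  | .inr q => if ¬ H (N.E q.1.1 q.1.2) then Ψ (N.sig H) (N.v q.1.1)
      else if ¬ H (N.E q.1.1 (q.1.2 - 1)) then Ψ (N.sig H) (N.u q.1.1)
      else N.lin Ψ (N.sig H) q.1.1 q.1.2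

noncomputable def ch (H : Sym2 N.Vx → Prop) (x : N.Vx) : Finset N.Vx :=
  if ((N.gr.neighborFinset x).filter fun y => ¬ H s(x, y)).Nonempty then
    (N.gr.neighborFinset x).filter fun y => ¬ H s(x, y) else N.gr.neighborFinset x

def add (H : Sym2 N.Vx → Prop) (e : Sym2 N.Vx) : Sym2 N.Vx → Prop := fun f => H f ∨ e = f

variable {N} {Val : Set S → J → Prop} {Ψ : Set S → J → ℝ} {H : Sym2 N.Vx → Prop}

lemma add_self {e : Sym2 N.Vx} (h : H e) : N.add H e = H := by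
  funext f
  exact propext ⟨fun hh => hh.elim id fun e' => e' ▸ h, .inl⟩

lemma add_E {s s' : S} {k i : ℕ} (hk : k < N.len s) (hi : i < N.len s') :
    N.add H (N.E s k) (N.E s' i) ↔ H (N.E s' i) ∨ (s = s' ∧ k = i) :=
  or_congr Iff.rfl ⟨N.E_inj hk hi, fun ⟨a, b⟩ => by rw [a, b]⟩

lemma sig_add {s : S} {k : ℕ} (hk : k < N.len s) :
    N.sig (N.add H (N.E s k)) = insert s (N.sig H) := by
  ext s'
  constructor
  · rintro ⟨i, hi, h⟩
    rcases (add_E hk hi).1 h with h | h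
    · exact .inr ⟨i, hi, h⟩
    · exact .inl h.1.symm
  · rintro (rfl | ⟨i, hi, h⟩)
    · exact ⟨k, hk, .inr rfl⟩
    · exact ⟨i, hi, .inl h⟩

lemma clean_add {s s' : S} {k : ℕ} (hk : k < N.len s) (hs : s' ≠ s)
    (h : N.Full H s' ∨ N.Emp H s') :
    N.Full (N.add H (N.E s k)) s' ∨ N.Emp (N.add H (N.E s k)) s' :=
  h.imp (fun h i hi => .inl (h i hi)) fun h i hi hh =>
    ((add_E hk hi).1 hh).elim (h i hi) fun e => hs e.1.symm

lemma phi_full {s : S} {k : ℕ} (hF : N.Full H s) (hk : k ≤ N.len s) :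
    N.PhiS Ψ H (N.pt s k) = N.lin Ψ (N.sig H) s k := by
  have h2 := N.two s
  rcases N.pt_cases s hk with ⟨c, d⟩ | ⟨c, d⟩ | ⟨c, d⟩ <;> rw [d]
  · simp [PhiS, lin, c]
  · have : (N.len s : ℝ) ≠ 0 := by positivity
    simp [PhiS, lin, c, this]
  · simp [PhiS, hF k c.2, hF (k - 1) (by omega)]

lemma inv_full {s : S} {k : ℕ} (hF : N.Full H s) (hk : k ≤ N.len s)
    (hc : ∀ s' ≠ s, N.Full H s' ∨ N.Emp H s') (hu : Val (N.sig H) (N.u s))
    (hv : Val (N.sig H) (N.v s)) : N.InvS Val H (N.pt s k) := by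
  have all : ∀ s', N.Full H s' ∨ N.Emp H s' := fun s' => by
    by_cases e : s' = s
    · exact .inl (e ▸ hF)
    · exact hc s' e
  rcases N.pt_cases s hk with ⟨c, d⟩ | ⟨c, d⟩ | ⟨c, d⟩
  · exact .inl ⟨_, d, all, hu⟩
  · exact .inl ⟨_, d, all, hv⟩
  · exact .inr ⟨s, k, c, rfl, hc, .inl ⟨hF, hu, hv⟩⟩

lemma fwd {s : S} {k : ℕ} (h0 : 0 < k) (hk : k ≤ N.len s)
    (hc : ∀ s' ≠ s, N.Full H s' ∨ N.Emp H s') (hF : ∀ i < N.len s, H (N.E s i) ↔ i < k)
    (hv : Val (N.sig H) (N.v s)) :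
    N.InvS Val H (N.pt s k) ∧ N.PhiS Ψ H (N.pt s k) = Ψ (N.sig H) (N.v s) := by
  rcases Nat.lt_or_eq_of_le hk with h1 | rfl
  · refine ⟨.inr ⟨s, k, ⟨h0, h1⟩, rfl, hc, .inr (.inl ⟨hF, hv⟩)⟩, ?_⟩
    rw [N.pt_in ⟨h0, h1⟩]
    simp [PhiS, hF k h1]
  · rw [N.pt_len]
    refine ⟨.inl ⟨_, rfl, fun s' => ?_, hv⟩, rfl⟩
    by_cases e : s' = s
    · exact .inl (e ▸ fun i hi => (hF i hi).2 hi)
    · exact hc s' e

lemma bwd {s : S} {k : ℕ} (hk : k < N.len s)
    (hc : ∀ s' ≠ s, N.Full H s' ∨ N.Emp H s') (hF : ∀ i < N.len s, H (N.E s i) ↔ k ≤ i)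
    (hv : Val (N.sig H) (N.u s)) :
    N.InvS Val H (N.pt s k) ∧ N.PhiS Ψ H (N.pt s k) = Ψ (N.sig H) (N.u s) := by
  rcases Nat.eq_zero_or_pos k with rfl | h0
  · rw [N.pt_zero]
    refine ⟨.inl ⟨_, rfl, fun s' => ?_, hv⟩, rfl⟩
    by_cases e : s' = s
    · exact .inl (e ▸ fun i hi => (hF i hi).2 (Nat.zero_le _))
    · exact hc s' e
  · refine ⟨.inr ⟨s, k, ⟨h0, hk⟩, rfl, hc, .inr (.inr ⟨hF, hv⟩)⟩, ?_⟩
    rw [N.pt_in ⟨h0, hk⟩]
    have : ¬ k ≤ k - 1 := by omega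
    simp [PhiS, hF k hk, hF (k - 1) (by omega), this]

structure Good (N : Net J S) (root : J) (Val : Set S → J → Prop) (Ψ : Set S → J → ℝ) : Prop where
  h0 : Val ∅ root
  h1 : ∀ σ j s, Val σ j → s ∈ N.inc j → s ∉ σ → Val (insert s σ) (N.other s j)
  h2 : ∀ σ j s, Val σ j → (∀ s ∈ N.inc j, s ∈ σ) → s ∈ N.inc j → Val σ (N.other s j)
  h3 : ∀ σ j, Val σ j → j ≠ root →
    ∑ s ∈ N.inc j, (if s ∈ σ then 0 else Ψ (insert s σ) (N.other s j) - Ψ σ j) ≤ 0
  h4 : ∀ σ j, Val σ j → j ≠ root → (∀ s ∈ N.inc j, s ∈ σ) →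
    ∑ s ∈ N.inc j, (Ψ σ (N.other s j) - Ψ σ j) / N.len s ≤ 0
  h5 : ∀ σ j, Val σ j → 0 ≤ Ψ σ j
  h6 : ∀ K : ℝ, ∃ W : Set J, W.Finite ∧ ∀ σ j, Val σ j → j ∉ W → K ≤ Ψ σ j

lemma step_inl {root : J} (hG : Good N root Val Ψ) {j : J} (hc : ∀ s, N.Full H s ∨ N.Emp H s)
    (hv : Val (N.sig H) j) :
    (∀ y ∈ N.ch H (.inl j), N.InvS Val (N.add H s(.inl j, y)) y) ∧ (j ≠ root →
      ∑ y ∈ N.ch H (.inl j), N.PhiS Ψ (N.add H s(.inl j, y)) y ≤
        (N.ch H (.inl j)).card * Ψ (N.sig H) j) := by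
  have fe : ∀ s ∈ N.inc j, s(.inl j, N.nxt j s) =
      N.E s (if N.u s = j then 0 else N.len s - 1) := by
    intro s hs
    have h2 := N.two s
    unfold nxt E
    split_ifs with h
    · rw [N.pt_zero, h]
    · rw [Nat.sub_add_cancel (by omega), N.pt_len, ((N.mem j s).1 hs).resolve_left h, Sym2.eq_swap]
  have lt : ∀ s, (if N.u s = j then 0 else N.len s - 1) < N.len s := by
    intro s
    have h2 := N.two s
    split_ifs <;> omega
  have us : ∀ s ∈ N.inc j, H s(.inl j, N.nxt j s) ↔ s ∈ N.sig H := by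
    intro s hs
    rw [fe s hs]
    refine ⟨fun h => ⟨_, lt s, h⟩, fun ⟨i, hi, h⟩ => ?_⟩
    exact ((hc s).resolve_right fun e => e i hi h) _ (lt s)
  have fr : ((N.gr.neighborFinset (.inl j)).filter fun y => ¬ H s(.inl j, y)) =
      ((N.inc j).filter fun s => s ∉ N.sig H).image (N.nxt j) := by
    rw [nb_inl, Finset.filter_image]
    congr 1
    exact Finset.filter_congr fun s hs => by rw [us s hs]
  unfold ch
  rw [fr]
  split_ifs with hne
  · have key : ∀ s ∈ (N.inc j).filter fun s => s ∉ N.sig H,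
        N.InvS Val (N.add H s(.inl j, N.nxt j s)) (N.nxt j s) ∧
        N.PhiS Ψ (N.add H s(.inl j, N.nxt j s)) (N.nxt j s) =
          Ψ (insert s (N.sig H)) (N.other s j) := by
      intro s hs
      obtain ⟨hs, hn⟩ := Finset.mem_filter.1 hs
      have h2 := N.two s
      have hE : N.Emp H s := fun i hi h => hn ⟨i, hi, h⟩
      have hV := hG.h1 _ _ _ hv hs hn
      rw [fe s hs, ← sig_add (lt s)]
      rw [← sig_add (lt s)] at hV
      have hcl := fun s' (e : s' ≠ s) => clean_add (lt s) e (hc s')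
      unfold nxt
      unfold other at hV ⊢
      split_ifs at hV hcl ⊢ with h
      · refine fwd one_pos (by omega) hcl (fun i hi => ?_) hV
        rw [add_E (by omega) hi]
        simp only [hE i hi, false_or, true_and]; omega
      · refine bwd (by omega) hcl (fun i hi => ?_) hV
        rw [add_E (by omega) hi]
        simp only [hE i hi, false_or, true_and]; omega
    refine ⟨fun y hy => ?_, fun hj => ?_⟩
    · obtain ⟨s, hs, rfl⟩ := Finset.mem_image.1 hy
      exact (key s hs).1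
    · rw [Finset.sum_image (N.nxt_inj j).injOn, Finset.card_image_of_injective _ (N.nxt_inj j),
        Finset.sum_congr rfl fun s hs => (key s hs).2]
      have := hG.h3 _ _ hv hj
      rw [Finset.sum_ite, Finset.sum_const_zero, zero_add, Finset.sum_sub_distrib,
        Finset.sum_const, nsmul_eq_mul] at this
      linarith
  · have all : ∀ s ∈ N.inc j, s ∈ N.sig H := fun s hs => by
      by_contra hn
      exact hne ⟨_, Finset.mem_image_of_mem _ (Finset.mem_filter.2 ⟨hs, hn⟩)⟩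
    have key : ∀ s ∈ N.inc j,
        N.InvS Val (N.add H s(.inl j, N.nxt j s)) (N.nxt j s) ∧
        N.PhiS Ψ (N.add H s(.inl j, N.nxt j s)) (N.nxt j s) =
          Ψ (N.sig H) j + (Ψ (N.sig H) (N.other s j) - Ψ (N.sig H) j) / N.len s := by
      intro s hs
      have h2 := N.two s
      have hF : N.Full H s := by
        obtain ⟨i, hi, h⟩ := all s hs
        exact (hc s).resolve_right fun e => e i hi h
      have hV := hG.h2 _ _ _ hv all hs
      rw [add_self ((us s hs).2 (all s hs))]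
      have hl : (N.len s : ℝ) ≠ 0 := by positivity
      unfold nxt
      unfold other at hV ⊢
      split_ifs at hV ⊢ with h
      · subst h
        refine ⟨inv_full hF (by omega) (fun s' _ => hc s') hv hV, ?_⟩
        rw [phi_full hF (by omega), lin]; ring
      · obtain rfl := ((N.mem j s).1 hs).resolve_left h
        refine ⟨inv_full hF (by omega) (fun s' _ => hc s') hV hv, ?_⟩
        rw [phi_full hF (by omega), lin, Nat.cast_sub (by omega)]
        field_simp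
        ring
    rw [nb_inl]
    refine ⟨fun y hy => ?_, fun hj => ?_⟩
    · obtain ⟨s, hs, rfl⟩ := Finset.mem_image.1 hy
      exact (key s hs).1
    · rw [Finset.sum_image (N.nxt_inj j).injOn, Finset.card_image_of_injective _ (N.nxt_inj j),
        Finset.sum_congr rfl fun s hs => (key s hs).2, Finset.sum_add_distrib,
        Finset.sum_const, nsmul_eq_mul]
      have := hG.h4 _ _ hv hj all
      linarith

lemma step_all {root : J} (hG : Good N root Val Ψ) {x : N.Vx} (hI : N.InvS Val H x) :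
    (∀ y ∈ N.ch H x, N.InvS Val (N.add H s(x, y)) y) ∧ (x ≠ .inl root →
      ∑ y ∈ N.ch H x, N.PhiS Ψ (N.add H s(x, y)) y ≤ (N.ch H x).card * N.PhiS Ψ H x) := by
  rcases hI with ⟨j, rfl, hc, hv⟩ | ⟨s, k, hk, rfl, hc, hI⟩
  · exact ⟨(step_inl hG hc hv).1, fun h => (step_inl hG hc hv).2 fun e => h (by rw [e])⟩
  have eL : s(N.pt s k, N.pt s (k - 1)) = N.E s (k - 1) := by
    rw [E, Nat.sub_add_cancel hk.1, Sym2.eq_swap]
  have eR : s(N.pt s k, N.pt s (k + 1)) = N.E s k := rfl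
  have hne := N.pm_ne hk
  unfold ch
  rw [N.nb_in hk, Finset.filter_insert, Finset.filter_singleton, eL, eR]
  rcases hI with ⟨hF, hu, hv⟩ | ⟨hF, hv⟩ | ⟨hF, hu⟩
  · have a1 := hF (k - 1) (by omega)
    have a2 := hF k hk.2
    simp only [a1, a2, not_true, if_false, Finset.not_nonempty_empty]
    refine ⟨fun y hy => ?_, fun _ => ?_⟩
    · simp only [Finset.mem_insert, Finset.mem_singleton] at hy
      rcases hy with rfl | rfl
      · rw [eL, add_self a1]; exact inv_full hF (by omega) hc hu hv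
      · rw [eR, add_self a2]; exact inv_full hF hk.2 hc hu hv
    · rw [Finset.sum_pair hne, Finset.card_pair hne, eL, eR, add_self a1, add_self a2,
        phi_full hF (by omega), phi_full hF hk.2, phi_full hF hk.2.le]
      simp only [lin, Nat.cast_sub hk.1]
      push_cast
      apply le_of_eq; ring
  · have a1 : H (N.E s (k - 1)) := (hF _ (by omega)).2 (by omega)
    have a2 : ¬ H (N.E s k) := fun h => lt_irrefl _ ((hF _ hk.2).1 h)
    simp only [a1, a2, not_true, if_false, not_false_iff, if_true, Finset.singleton_nonempty,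
      Finset.mem_singleton, forall_eq, Finset.sum_singleton, Finset.card_singleton, eR]
    have es : N.sig (N.add H (N.E s k)) = N.sig H := by
      rw [sig_add hk.2, Set.insert_eq_of_mem (show s ∈ N.sig H from ⟨k - 1, by omega, a1⟩)]
    have := fwd (Ψ := Ψ) (Val := Val) (H := N.add H (N.E s k)) (k := k + 1) (by omega) hk.2
      (fun s' e => clean_add hk.2 e (hc s' e)) (fun i hi => by
        rw [add_E hk.2 hi, hF i hi]; simp only [true_and]; omega) (es ▸ hv)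
    refine ⟨this.1, fun _ => ?_⟩
    rw [this.2, es, (fwd (Ψ := Ψ) hk.1 hk.2.le hc hF hv).2]; simp
  · have a1 : ¬ H (N.E s (k - 1)) := fun h => by have := (hF _ (by omega)).1 h; omega
    have a2 : H (N.E s k) := (hF _ hk.2).2 le_rfl
    simp only [a1, a2, not_true, if_false, not_false_iff, if_true, insert_empty_eq,
      Finset.singleton_nonempty,
      Finset.mem_singleton, forall_eq, Finset.sum_singleton, Finset.card_singleton, eL]
    have hk1 : k - 1 < N.len s := by omega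
    have es : N.sig (N.add H (N.E s (k - 1))) = N.sig H := by
      rw [sig_add hk1, Set.insert_eq_of_mem (show s ∈ N.sig H from ⟨k, hk.2, a2⟩)]
    have := bwd (Ψ := Ψ) (Val := Val) (H := N.add H (N.E s (k - 1))) (k := k - 1) hk1
      (fun s' e => clean_add hk1 e (hc s' e)) (fun i hi => by
        rw [add_E hk1 hi, hF i hi]; simp only [true_and]; omega) (es ▸ hu)
    refine ⟨this.1, fun _ => ?_⟩
    rw [this.2, es, (bwd (Ψ := Ψ) hk.2 hc hF hu).2]; simp

lemma low {x : N.Vx} (hI : N.InvS Val H x) (K : ℝ) (W : Set J)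
    (hW : ∀ σ j, Val σ j → j ∉ W → K ≤ Ψ σ j)
    (hx : ∀ s k, k ≤ N.len s → x = N.pt s k → N.u s ∉ W ∧ N.v s ∉ W)
    (hj : ∀ j, x = .inl j → j ∉ W) : K ≤ N.PhiS Ψ H x := by
  rcases hI with ⟨j, rfl, -, hv⟩ | ⟨s, k, hk, rfl, hc, hI⟩
  · exact hW _ _ hv (hj j rfl)
  obtain ⟨wu, wv⟩ := hx s k hk.2.le rfl
  rcases hI with ⟨hF, hu, hv⟩ | ⟨hF, hv⟩ | ⟨hF, hu⟩
  · rw [phi_full hF hk.2.le, lin]
    have a := hW _ _ hu wu
    have b := hW _ _ hv wv
    have hl : (0 : ℝ) < N.len s := by have := N.two s; positivity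
    have c : (k : ℝ) / N.len s ≤ 1 := (div_le_one hl).2 (by exact_mod_cast hk.2.le)
    have d : (0 : ℝ) ≤ k / N.len s := by positivity
    nlinarith
  · rw [(fwd (Ψ := Ψ) hk.1 hk.2.le hc hF hv).2]; exact hW _ _ hv wv
  · rw [(bwd (Ψ := Ψ) hk.2 hc hF hu).2]; exact hW _ _ hu wu

theorem net_recur [Countable J] [Countable S] {root : J} (hG : Good N root Val Ψ)
    (hc : N.gr.Preconnected) {Ω : Type} [MeasurableSpace Ω] {P : Measure Ω} {X : ℕ → Ω → N.Vx}
    (h : IsGRW N.gr (.inl root) P X) : ∀ᵐ ω ∂P, {t | X t ω = .inl root}.Infinite := by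
  have eu : ∀ (γ : ℕ → N.Vx) t y, Used (update γ (t + 1) y) (t + 1) = N.add (Used γ t) s(γ t, y) :=
    fun γ t y => funext fun e => propext (used_upd γ t y e)
  refine recur h hc (fun t γ => N.InvS Val (Used γ t) (γ t)) (fun t γ => N.PhiS Ψ (Used γ t) (γ t))
    (fun t γ γ' e => by simp only [used_loc e, e t le_rfl])
    (fun t γ γ' e => by simp only [used_loc e, e t le_rfl]) (fun γ h0 => ?_)
    (fun t γ hI y hy => ?_) (fun t γ hI hr => ?_) (fun t γ hI => ?_) (fun K => ?_)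
  · refine .inl ⟨root, h0, fun s => .inr fun k _ ⟨_, h, _⟩ => by omega, ?_⟩
    have : N.sig (Used γ 0) = ∅ := Set.eq_empty_of_forall_notMem fun s ⟨_, _, _, h, _⟩ => by omega
    rw [this]; exact hG.h0
  · simp only [eu, update_self]
    exact (step_all hG hI).1 y hy
  · simp only [eu, update_self]
    exact (step_all hG hI).2 hr
  · exact low hI 0 ∅ (fun σ j h _ => hG.h5 σ j h) (by simp) (by simp)
  · obtain ⟨W, hW, hK⟩ := hG.h6 K
    refine ⟨Sum.inl '' W ∪ ⋃ j ∈ W, ⋃ s ∈ N.inc j, N.pt s '' Set.Iic (N.len s),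
      (hW.image _).union (hW.biUnion fun j _ => (Finset.finite_toSet _).biUnion fun s _ =>
        (Set.finite_Iic _).image _), fun t γ hI hn => low hI K W hK (fun s k hk e => ?_)
        fun j e hj => hn (.inl ⟨j, hj, e.symm⟩)⟩
    constructor <;> intro hm <;> refine hn (.inr ?_) <;> simp only [Set.mem_iUnion]
    · exact ⟨_, hm, s, (N.mem _ _).2 (.inl rfl), k, hk, e.symm⟩
    · exact ⟨_, hm, s, (N.mem _ _).2 (.inr rfl), k, hk, e.symm⟩

end Net
end Pool.Agent.H.GRW
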