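import Pool.Agent.H.MP_4770bc_pr.C
import Pool.Agent.H.MP_4770bc_pr.D

/-! The chain of hubs joined by valves, fast links and lateral links. -/

namespace Pool.Agent.H.GRW

open Function Valve
open scoped Classical

structure Par where
  lat : ℕ → Finset ℕ
  symm : ∀ {a b}, b ∈ lat a → a ∈ lat b
  irr : ∀ a, a ∉ lat a
  M : ℕ
  M1 : 1 ≤ M
  bd : ∀ m, 10 * (∑ j ∈ lat m, (j + 1)) * (m + 1) ^ 2 ≤ M * 2 ^ m

namespace Par
variable (p : Par)

def F (n : ℕ) : ℕ := p.M * 2 ^ n
def NN (n : ℕ) : ℕ := 50 * p.F n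

lemma F_succ (n : ℕ) : p.F (n + 1) = 2 * p.F n := by simp only [F]; ring
lemma F_pos (n : ℕ) : 0 < p.F n := by have := p.M1; unfold F; positivity

inductive Jn
  | hub (n : ℕ) : Jn
  | vj (n : ℕ) (i : Fin (p.NN n)) (c : Fin 8) : Jn

inductive Sg
  | va (n : ℕ) (i : Fin (p.NN n)) (e : Fin 13) : Sg
  | fa (n : ℕ) (i : Fin (p.F n)) : Sg
  | la (a b : ℕ) (h : a < b ∧ b ∈ p.lat a) : Sg

open Jn Sg

instance : Countable p.Jn := by
  let f : p.Jn → ℕ × ℕ × ℕ := fun j => match j with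
    | .hub n => (n, 0, 8)
    | .vj n i c => (n, i, c)
  refine Injective.countable (f := f) ?_
  rintro (a | ⟨a, i, c⟩) (b | ⟨b, k, d⟩) h <;> simp only [f, Prod.mk.injEq] at h
  · rw [h.1]
  · omega
  · omega
  · obtain ⟨rfl, h1, h2⟩ := h
    rw [Fin.ext h1, Fin.ext h2]

instance : Countable p.Sg := by
  let f : p.Sg → ℕ × ℕ × ℕ := fun j => match j with
    | .va n i e => (n, i, e)
    | .fa n i => (n, i, 13)
    | .la a b _ => (a, b, 14)
  refine Injective.countable (f := f) ?_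
  rintro (⟨a, i, c⟩ | ⟨a, i⟩ | ⟨a, i, c⟩) (⟨b, k, d⟩ | ⟨b, k⟩ | ⟨b, k, d⟩) h <;>
    simp only [f, Prod.mk.injEq] at h <;> try omega
  · obtain ⟨rfl, h1, h2⟩ := h
    rw [Fin.ext h1, Fin.ext h2]
  · obtain ⟨rfl, h1, -⟩ := h
    rw [Fin.ext h1]
  · obtain ⟨rfl, rfl, -⟩ := h
    rfl

variable {p}

def loc (n : ℕ) (i : Fin (p.NN n)) (o : ℕ) : p.Jn :=
  if h : o < 8 then vj n i ⟨o, h⟩ else if o = 8 then hub n else hub (n + 1)

def uu : p.Sg → p.Jn
  | va n i e => loc n i (su e)
  | fa n _ => hub n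
  | la a _ _ => hub a

def vv : p.Sg → p.Jn
  | va n i e => loc n i (sv e)
  | fa n _ => hub (n + 1)
  | la _ b _ => hub b

def ln : p.Sg → ℕ
  | va _ _ e => sl e
  | _ => 2

lemma lat_ne (m : ℕ) (j : p.lat m) : (j : ℕ) ≠ m := fun e => p.irr m (by
  have := j.2
  rwa [e] at this)

def la' (m : ℕ) (j : p.lat m) : p.Sg :=
  if h : m < j then la m j ⟨h, j.2⟩ else la j m ⟨by
    have := lat_ne m j
    omega, p.symm j.2⟩

noncomputable def low : ℕ → Finset p.Sg
  | 0 => ∅
  | n + 1 => Finset.univ.image (fun i => va n i 12) ∪ Finset.univ.image (fa n)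

noncomputable def inc : p.Jn → Finset p.Sg
  | hub m => Finset.univ.image (fun i => va m i 0) ∪ Finset.univ.image (fa m) ∪
      Finset.univ.image (la' m) ∪ low m
  | vj n i c => (Finset.univ.filter fun e => su e = c ∨ sv e = c).image (va n i)

lemma s_facts (e : Fin 13) : su e ≤ 8 ∧ sv e ≤ 9 ∧ sv e ≠ 8 ∧ su e ≠ sv e ∧ (su e = 8 ↔ e = 0) ∧
    (sv e = 9 ↔ e = 12) ∧ 2 ≤ sl e ∧ sl e ≤ 4000000 := by
  revert e; decide

lemma loc_vj {n n' : ℕ} {i : Fin (p.NN n)} {i' : Fin (p.NN n')} {o : ℕ} {c : Fin 8} :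
    loc n i o = vj n' i' c ↔ n = n' ∧ (i : ℕ) = i' ∧ o = c := by
  have := c.2
  unfold loc
  split_ifs with h1 h2
  · constructor
    · intro h
      cases h
      exact ⟨rfl, rfl, rfl⟩
    · rintro ⟨rfl, h, rfl⟩
      rw [Fin.ext h]
  · simp; omega
  · simp; omega

lemma loc_hub {n m : ℕ} {i : Fin (p.NN n)} {o : ℕ} :
    loc n i o = hub m ↔ (o = 8 ∧ n = m) ∨ (8 < o ∧ n + 1 = m) := by
  unfold loc
  split_ifs with h1 h2 <;> simp <;> omega

lemma la'_iff {m a b : ℕ} (h : a < b ∧ b ∈ p.lat a) :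
    (∃ j, la' m j = la a b h) ↔ a = m ∨ b = m := by
  constructor
  · rintro ⟨j, hj⟩
    unfold la' at hj
    split_ifs at hj <;> simp only [la.injEq] at hj <;> omega
  · rintro (rfl | rfl)
    · exact ⟨⟨b, h.2⟩, by simp [la', h.1]⟩
    · exact ⟨⟨a, p.symm h.2⟩, by simp [la', h.1.not_gt]⟩

lemma la'_la (m : ℕ) (j : p.lat m) : ∃ a b h, la' m j = la a b h := by
  by_cases h : m < j
  · exact ⟨_, _, _, dif_pos h⟩
  · exact ⟨_, _, _, dif_neg h⟩

lemma la'_inj (m : ℕ) : Injective (la' (p := p) m) := by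
  intro j k h
  unfold la' at h
  apply Subtype.ext
  split_ifs at h <;> simp only [la.injEq] at h <;> omega

lemma mem_inc (j : p.Jn) (s : p.Sg) : s ∈ inc j ↔ uu s = j ∨ vv s = j := by
  have nl : ∀ m (s : p.Sg), (∀ a b h, s ≠ la a b h) → ¬ ∃ j, la' m j = s := by
    rintro m s h ⟨j, rfl⟩
    obtain ⟨a, b, h', e⟩ := la'_la m j
    exact h a b h' e
  rcases j with m | ⟨n', i', c⟩ <;> rcases s with ⟨n, i, e⟩ | ⟨n, i⟩ | ⟨a, b, h⟩
  · obtain ⟨h1, h2, h3, h4, h5, h6, -⟩ := s_facts e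
    have A : va n i e ∈ Finset.univ.image (fun i => va m i 0) ↔ su e = 8 ∧ n = m := by
      rw [h5]
      simp only [Finset.mem_image, Finset.mem_univ, true_and]
      constructor
      · rintro ⟨k, hk⟩; cases hk; exact ⟨rfl, rfl⟩
      · rintro ⟨rfl, rfl⟩; exact ⟨i, rfl⟩
    have B : va n i e ∈ low m ↔ sv e = 9 ∧ n + 1 = m := by
      rw [h6]
      rcases m with _ | m
      · simp [low]
      · simp only [low, Finset.mem_union, Finset.mem_image, Finset.mem_univ, true_and]
        constructor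
        · rintro (⟨k, hk⟩ | ⟨k, hk⟩) <;> cases hk; exact ⟨rfl, rfl⟩
        · rintro ⟨rfl, h⟩
          obtain rfl : n = m := by omega
          exact .inl ⟨i, rfl⟩
    have C := nl m (va n i e) (by simp)
    simp only [inc, Finset.mem_union, A, B, uu, vv, loc_hub]
    simp only [Finset.mem_image, Finset.mem_univ, true_and, C, reduceCtorEq, exists_false,
      or_false]
    clear h5 h6
    omega
  · have A : fa n i ∈ Finset.univ.image (fa m) ↔ n = m := by
      simp only [Finset.mem_image, Finset.mem_univ, true_and]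
      constructor
      · rintro ⟨k, hk⟩; cases hk; rfl
      · rintro rfl; exact ⟨i, rfl⟩
    have B : fa n i ∈ low m ↔ n + 1 = m := by
      rcases m with _ | m
      · simp [low]
      · simp only [low, Finset.mem_union, Finset.mem_image, Finset.mem_univ, true_and]
        constructor
        · rintro (⟨k, hk⟩ | ⟨k, hk⟩) <;> cases hk; rfl
        · intro h
          obtain rfl : n = m := by omega
          exact .inr ⟨i, rfl⟩
    have C := nl m (fa n i) (by simp)
    simp only [inc, Finset.mem_union, A, B, uu, vv, hub.injEq]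
    simp only [Finset.mem_image, Finset.mem_univ, true_and, C, reduceCtorEq, exists_false]
    tauto
  · have B : la a b h ∉ low m := by rcases m with _ | m <;> simp [low]
    simp only [inc, Finset.mem_union, Finset.mem_image, Finset.mem_univ, true_and, B, la'_iff, uu,
      vv, reduceCtorEq, exists_false, hub.injEq, or_false, false_or]
  · simp only [inc, Finset.mem_image, Finset.mem_filter, Finset.mem_univ, true_and, uu, vv, loc_vj]
    constructor
    · rintro ⟨k, hk, h⟩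
      cases h
      tauto
    · rintro (⟨rfl, h, h'⟩ | ⟨rfl, h, h'⟩)
      · exact ⟨e, .inl h', by rw [Fin.ext h]⟩
      · exact ⟨e, .inr h', by rw [Fin.ext h]⟩
  · simp [inc, uu, vv]
  · simp [inc, uu, vv]

variable (p) in
noncomputable def net : Net p.Jn p.Sg where
  u := uu
  v := vv
  len := ln
  two := by
    rintro (⟨n, i, e⟩ | _ | _)
    · exact (s_facts e).2.2.2.2.2.2.1
    · exact le_rfl
    · exact le_rfl
  ne := by
    rintro (⟨n, i, e⟩ | _ | ⟨a, b, h⟩)
    · obtain ⟨h1, h2, h3, h4, -⟩ := s_facts e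
      simp only [uu, vv]
      by_cases h : sv e < 8
      · rw [show loc n i (sv e) = vj n i ⟨_, h⟩ by simp [loc, h], Ne, loc_vj]
        simp [h4]
      · rw [show loc n i (sv e) = hub (n + 1) by simp [loc, h, h3], Ne, loc_hub]
        omega
    · simp [uu, vv]
    · simp [uu, vv, h.1.ne]
  inc := inc
  mem := mem_inc

lemma sum_hub (m : ℕ) (f : p.Sg → ℝ) : ∑ s ∈ inc (hub m), f s =
    ∑ i, f (va m i 0) + ∑ i, f (fa m i) + ∑ j, f (la' m j) + ∑ s ∈ low m, f s := by
  have hl := la'_la (p := p) m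
  simp only [inc]
  rw [Finset.sum_union, Finset.sum_union, Finset.sum_union, Finset.sum_image, Finset.sum_image,
    Finset.sum_image (la'_inj m).injOn]
  · intro a _ b _ h; simpa using h
  · intro a _ b _ h; simpa using h
  · simp [Finset.disjoint_left]
  · simp only [Finset.disjoint_right, Finset.mem_image, Finset.mem_univ, true_and]
    rintro _ ⟨j, rfl⟩
    obtain ⟨a, b, h, e⟩ := hl j
    simp [e]
  · simp only [Finset.disjoint_left, Finset.mem_union, Finset.mem_image, Finset.mem_univ, true_and]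
    rintro _ ((⟨j, rfl⟩ | ⟨j, rfl⟩) | ⟨j, rfl⟩) <;> rcases m with _ | m
    all_goals try simp [low]
    obtain ⟨a, b, h, e⟩ := hl j
    simp [e]

lemma sum_low (n : ℕ) (f : p.Sg → ℝ) :
    ∑ s ∈ low (n + 1), f s = ∑ i, f (va n i 12) + ∑ i, f (fa n i) := by
  simp only [low]
  rw [Finset.sum_union, Finset.sum_image, Finset.sum_image]
  · intro a _ b _ h; simpa using h
  · intro a _ b _ h; simpa using h
  · simp [Finset.disjoint_left]

lemma sum_vj (n : ℕ) (i : Fin (p.NN n)) (c : Fin 8) (f : p.Sg → ℝ) : ∑ s ∈ inc (vj n i c), f s =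
    ∑ e, if su e = c ∨ sv e = c then f (va n i e) else 0 := by
  simp only [inc]
  rw [Finset.sum_image, Finset.sum_filter]
  intro a _ b _ h; simpa using h

lemma o_head (m : ℕ) (i : Fin (p.NN m)) : p.net.other (va m i 0) (hub m) = loc m i 0 := by
  simp [Net.other, net, uu, vv, su, sv, loc]
lemma o_tail (n : ℕ) (i : Fin (p.NN n)) : p.net.other (va n i 12) (hub (n + 1)) = loc n i 7 := by
  simp [Net.other, net, uu, vv, su, sv, loc]
lemma o_up (m : ℕ) (i : Fin (p.F m)) : p.net.other (fa m i) (hub m) = hub (m + 1) := by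
  simp [Net.other, net, uu, vv]
lemma o_down (n : ℕ) (i : Fin (p.F n)) : p.net.other (fa n i) (hub (n + 1)) = hub n := by
  simp [Net.other, net, uu, vv]
lemma o_lat (m : ℕ) (j : p.lat m) : p.net.other (la' m j) (hub m) = hub j := by
  have := lat_ne m j
  unfold la'
  split_ifs <;> simp [Net.other, net, uu, vv, this]
lemma o_vj (n : ℕ) (i : Fin (p.NN n)) (c : Fin 8) (e : Fin 13) :
    p.net.other (va n i e) (vj n i c) = loc n i (oth e c) := by
  simp only [Net.other, net, uu, vv, loc_vj, true_and, oth]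
  split_ifs <;> rfl

lemma hub_cases {m : ℕ} {s : p.Sg} (h : s ∈ inc (hub m)) : (∃ i, s = va m i 0) ∨
    (∃ n i, m = n + 1 ∧ s = va n i 12) ∨
      ((∀ n i e, s ≠ va n i e) ∧ ∃ k, p.net.other s (hub m) = hub k) := by
  simp only [inc, Finset.mem_union, Finset.mem_image, Finset.mem_univ, true_and] at h
  rcases h with ((⟨i, rfl⟩ | ⟨i, rfl⟩) | ⟨j, rfl⟩) | h
  · exact .inl ⟨i, rfl⟩
  · exact .inr (.inr ⟨by simp, _, o_up m i⟩)
  · refine .inr (.inr ⟨?_, _, o_lat m j⟩)
    obtain ⟨a, b, h, e⟩ := la'_la m j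
    simp [e]
  · rcases m with _ | n
    · simp [low] at h
    simp only [low, Finset.mem_union, Finset.mem_image, Finset.mem_univ, true_and] at h
    rcases h with ⟨i, rfl⟩ | ⟨i, rfl⟩
    · exact .inr (.inl ⟨n, i, rfl, rfl⟩)
    · exact .inr (.inr ⟨by simp, _, o_down n i⟩)

end Par
end Pool.Agent.H.GRW
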