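import Pool.Agent.H.MP_4770bc_pr.E

/-! The Lyapunov function on the chain of hubs. -/

namespace Pool.Agent.H.GRW
namespace Par

open Function Valve Jn Sg
open scoped Classical

variable {p : Par}

noncomputable def mask (σ : Set p.Sg) (n : ℕ) (i : Fin (p.NN n)) : ℕ :=
  Nat.ofBits fun e : Fin 13 => decide (va n i e ∈ σ)

def rel : p.Jn → (n : ℕ) → Fin (p.NN n) → ℕ
  | hub _, _, _ => 8
  | vj n' i' c, n, i => if n' = n ∧ (i' : ℕ) = i then c else 8

noncomputable def cv (σ : Set p.Sg) (j : p.Jn) (n : ℕ) (i : Fin (p.NN n)) : ℝ :=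
  look (mask σ n i) (rel j n i) / 4000000000000

noncomputable def U (σ : Set p.Sg) (n : ℕ) : ℕ := (Finset.univ.filter fun i => va n i 12 ∈ σ).card
def unh (σ : Set p.Sg) (n : ℕ) : Prop := p.NN n < 2 * U σ n
def flag (σ : Set p.Sg) (n : ℕ) : Prop := ∃ i, va n i 12 ∉ σ
noncomputable def rho (n : ℕ) : ℝ := (1 - 1 / ((n : ℝ) + 2) ^ 2) / 2

noncomputable def w (σ : Set p.Sg) : ℕ → ℝ
  | 0 => 1
  | n + 1 => w σ n * if unh σ n then rho n else 1

noncomputable def psi (σ : Set p.Sg) (n : ℕ) : ℝ := ∑ k ∈ Finset.range n, w σ k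

noncomputable def cost (m : ℕ) : p.Sg → ℝ
  | va n _ _ => if n = m then 13 / 200 else 0
  | fa n _ => if n = m then 13 / 25 else 0
  | la a b _ => if a = m then b + 1 else a + 1

noncomputable def sp (σ : Set p.Sg) (n : ℕ) : ℝ :=
  if unh σ n then ∑ s ∈ inc (hub (n + 1)), if s ∈ σ then cost (n + 1) s else 0 else 0

noncomputable def beta (σ : Set p.Sg) (j : p.Jn) (n : ℕ) : ℝ := ∑ i, cv σ j n i - sp σ n
noncomputable def bank (σ : Set p.Sg) (j : p.Jn) : ℝ := ∑' n, w σ n * beta σ j n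

noncomputable def base (σ : Set p.Sg) : p.Jn → ℝ
  | hub 0 => 0
  | hub (n + 1) => psi σ (n + 1) - if flag σ n then w σ n / 50 else 0
  | vj n _ _ => psi σ n

noncomputable def Psi (σ : Set p.Sg) (j : p.Jn) : ℝ := base σ j + bank σ j
def Val (σ : Set p.Sg) (j : p.Jn) : Prop := σ.Finite ∧ ∀ n i, dom (mask σ n i) (rel j n i)

noncomputable def Lam (m : ℕ) : ℝ := ∑ j : p.lat m, ((j : ℝ) + 1)

lemma Lam_bd (m : ℕ) : 10 * Lam (p := p) m * ((m : ℝ) + 1) ^ 2 ≤ p.F m := by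
  have := p.bd m
  unfold Lam F
  rw [Finset.sum_coe_sort (p.lat m) fun j => (j : ℝ) + 1]
  exact_mod_cast this

lemma Lam_nn (m : ℕ) : 0 ≤ Lam (p := p) m := Finset.sum_nonneg fun _ _ => by positivity

lemma Lam_le (n : ℕ) : 20 * Lam (p := p) (n + 1) ≤ p.F n := by
  have h := Lam_bd (p := p) (n + 1)
  have h0 := Lam_nn (p := p) (n + 1)
  rw [F_succ] at h
  push_cast at h
  have : (0 : ℝ) ≤ n := Nat.cast_nonneg n
  have : (4 : ℝ) ≤ ((n : ℝ) + 1 + 1) ^ 2 := by nlinarith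
  nlinarith

lemma rho_bd (n : ℕ) : 1 / 4 ≤ rho n ∧ rho n ≤ 1 / 2 := by
  have : (0 : ℝ) ≤ n := Nat.cast_nonneg n
  have h1 : 1 / ((n : ℝ) + 2) ^ 2 ≤ 1 / 4 :=
    one_div_le_one_div_of_le (by norm_num) (by nlinarith)
  have h2 : 0 ≤ 1 / ((n : ℝ) + 2) ^ 2 := by positivity
  unfold rho
  constructor <;> linarith

variable {σ σ' : Set p.Sg} {j j' : p.Jn}

lemma bit (σ : Set p.Sg) (n : ℕ) (i : Fin (p.NN n)) (e : Fin 13) :
    (mask σ n i).testBit e ↔ va n i e ∈ σ := by
  simp [mask, Nat.testBit_ofBits_lt _ _ e.2]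

lemma mask_ins (σ : Set p.Sg) (n : ℕ) (i : Fin (p.NN n)) (e : Fin 13) :
    mask (insert (va n i e) σ) n i = mask σ n i ||| 2 ^ e.1 := by
  apply Nat.eq_of_testBit_eq
  intro k
  rw [Nat.testBit_or, Nat.testBit_two_pow]
  by_cases hk : k < 13
  · simp only [mask, Nat.testBit_ofBits_lt _ _ hk, Set.mem_insert_iff, va.injEq, heq_eq_eq,
      true_and, Fin.ext_iff]
    by_cases h : k = e <;> simp [h, eq_comm]
  · have := e.2
    simp only [mask, Nat.testBit_ofBits_ge _ _ (not_lt.1 hk)]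
    simp; omega

lemma mask_ne {s : p.Sg} {n : ℕ} {i : Fin (p.NN n)} (h : ∀ e, s ≠ va n i e) :
    mask (insert s σ) n i = mask σ n i := by
  simp only [mask, Set.mem_insert_iff, (h _).symm, false_or]

lemma rel_le (j : p.Jn) (n : ℕ) (i : Fin (p.NN n)) : rel j n i ≤ 8 := by
  rcases j with _ | ⟨_, _, c⟩ <;> simp only [rel]
  · exact le_rfl
  · split_ifs <;> omega

lemma rel_loc (n : ℕ) (i : Fin (p.NN n)) (o : ℕ) : rel (loc n i o) n i = min o 8 := by
  unfold loc
  split_ifs <;> simp [rel] <;> omega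

lemma rel_loc' {n n' : ℕ} {i : Fin (p.NN n)} {i' : Fin (p.NN n')} (o : ℕ)
    (h : ¬ (n = n' ∧ (i : ℕ) = i')) : rel (loc n i o) n' i' = 8 := by
  unfold loc
  split_ifs <;> simp only [rel, h, if_false]

lemma unh_mono (h : σ ⊆ σ') {n : ℕ} (hu : unh σ n) : unh σ' n := by
  have : U σ n ≤ U σ' n := Finset.card_le_card fun i hi => by
    simp only [Finset.mem_filter, Finset.mem_univ, true_and] at hi ⊢
    exact h hi
  unfold unh at hu ⊢
  omega

lemma w_pos (σ : Set p.Sg) (n : ℕ) : 0 < w σ n := by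
  induction n with
  | zero => simp [w]
  | succ n ih =>
    have := (rho_bd n).1
    simp only [w]
    split_ifs <;> positivity

lemma w_succ (σ : Set p.Sg) (n : ℕ) : w σ (n + 1) ≤ w σ n := by
  have := (rho_bd n).2
  have := w_pos σ n
  simp only [w]
  split_ifs <;> nlinarith

lemma w_anti (σ : Set p.Sg) : Antitone (w σ) := antitone_nat_of_succ_le (w_succ σ)

lemma w_mono (h : σ ⊆ σ') (n : ℕ) : w σ' n ≤ w σ n := by
  induction n with
  | zero => simp [w]
  | succ n ih =>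
    have := rho_bd n
    have := w_pos σ' n
    simp only [w]
    refine mul_le_mul ih ?_ ?_ (w_pos σ n).le
    · by_cases h1 : unh σ n
      · rw [if_pos h1, if_pos (unh_mono h h1)]
      · rw [if_neg h1]; split_ifs <;> linarith
    · split_ifs <;> linarith

lemma w_low (σ : Set p.Sg) (n : ℕ) : ((n : ℝ) + 2) / (2 * (n + 1) * 2 ^ n) ≤ w σ n := by
  induction n with
  | zero => simp [w]
  | succ n ih =>
    have h := rho_bd n
    have e : (((n + 1 : ℕ) : ℝ) + 2) / (2 * ((n + 1 : ℕ) + 1) * 2 ^ (n + 1)) =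
        ((n : ℝ) + 2) / (2 * (n + 1) * 2 ^ n) * rho n := by
      unfold rho
      push_cast
      field_simp
      ring
    rw [e]
    simp only [w]
    refine mul_le_mul ih ?_ (by linarith) (w_pos σ n).le
    split_ifs <;> linarith

lemma psi_succ (σ : Set p.Sg) (n : ℕ) : psi σ (n + 1) = psi σ n + w σ n := Finset.sum_range_succ _ _

lemma psi_mono (h : σ ⊆ σ') (n : ℕ) : psi σ' n ≤ psi σ n :=
  Finset.sum_le_sum fun k _ => w_mono h k

lemma psi_le (σ : Set p.Sg) (k m : ℕ) : psi σ k ≤ psi σ m + k * w σ m := by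
  induction k with
  | zero => simpa [psi] using Finset.sum_nonneg fun k _ => (w_pos σ k).le
  | succ k ih =>
    by_cases h : k < m
    · have : psi σ (k + 1) ≤ psi σ m := Finset.sum_le_sum_of_subset_of_nonneg
        (Finset.range_mono h) fun k _ _ => (w_pos σ k).le
      have : 0 ≤ ((k + 1 : ℕ) : ℝ) * w σ m := mul_nonneg (Nat.cast_nonneg _) (w_pos σ m).le
      linarith
    · have := w_anti σ (not_lt.1 h)
      rw [psi_succ]; push_cast; linarith

lemma base_hub (σ : Set p.Sg) (m : ℕ) : base σ (hub m) ≤ psi σ m := by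
  rcases m with _ | n
  · simp [base, psi]
  · have := w_pos σ n
    simp only [base]
    split_ifs <;> linarith

lemma base_hub' (σ : Set p.Sg) (n : ℕ) : psi σ (n + 1) - w σ n / 50 ≤ base σ (hub (n + 1)) := by
  have := w_pos σ n
  simp only [base]
  split_ifs <;> linarith

lemma base_loc (h : σ ⊆ σ') (n : ℕ) (i : Fin (p.NN n)) {o : ℕ} (ho : o ≤ 9) :
    base σ' (loc n i o) ≤ psi σ n + if o = 9 then w σ n else 0 := by
  unfold loc
  split_ifs with h1 h2 h3 h4 h5 <;> try omega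
  · simpa [base] using psi_mono h n
  · simpa using (base_hub σ' n).trans (psi_mono h n)
  · rw [← psi_succ]; exact (base_hub σ' _).trans (psi_mono h _)

lemma cost_nn (m : ℕ) (s : p.Sg) : 0 ≤ cost m s := by
  rcases s with _ | _ | _ <;> simp only [cost] <;> split_ifs <;> positivity

lemma cost_lat (m : ℕ) (j : p.lat m) : cost m (la' m j) = (j : ℝ) + 1 := by
  have := lat_ne m j
  unfold la'
  split_ifs <;> simp [cost, this]

lemma sp_mono (h : σ ⊆ σ') (n : ℕ) : sp σ n ≤ sp σ' n := by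
  unfold sp
  by_cases h1 : unh σ n
  · rw [if_pos h1, if_pos (unh_mono h h1)]
    refine Finset.sum_le_sum fun s _ => ?_
    by_cases h2 : s ∈ σ
    · rw [if_pos h2, if_pos (h h2)]
    · rw [if_neg h2]; split_ifs
      · exact cost_nn _ _
      · exact le_rfl
  · rw [if_neg h1]
    split_ifs
    · exact Finset.sum_nonneg fun s _ => by
        split_ifs
        · exact cost_nn _ _
        · exact le_rfl
    · exact le_rfl

lemma sp_ins {s : p.Sg} {n : ℕ} (hs : s ∈ inc (hub (n + 1))) (hn : s ∉ σ) :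
    sp σ n + (if unh σ n then cost (n + 1) s else 0) ≤ sp (insert s σ) n := by
  by_cases h1 : unh σ n
  · unfold sp
    rw [if_pos h1, if_pos h1, if_pos (unh_mono (Set.subset_insert _ _) h1),
      ← Finset.add_sum_erase _ _ hs, ← Finset.add_sum_erase _ _ hs, if_neg hn,
      if_pos (Set.mem_insert _ _), zero_add, add_comm]
    refine add_le_add le_rfl (Finset.sum_le_sum fun t ht => ?_)
    simp [Finset.ne_of_mem_erase ht]
  · rw [if_neg h1, add_zero]; exact sp_mono (Set.subset_insert _ _) n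

lemma cv_nn (σ : Set p.Sg) (j : p.Jn) (n : ℕ) (i : Fin (p.NN n)) : 0 ≤ cv σ j n i := by
  unfold cv; positivity

lemma beta_ge (hV : Val σ j) (n : ℕ) : (if unh σ n then (p.F n : ℝ) else 0) ≤ beta σ j n := by
  unfold beta sp
  split_ifs with h
  swap
  · simpa using Finset.sum_nonneg fun i _ => cv_nn σ j n i
  have a1 : (U σ n : ℝ) * (7 / 20) ≤ ∑ i, cv σ j n i := by
    rw [U, ← nsmul_eq_mul, ← Finset.sum_const, Finset.sum_filter]
    refine Finset.sum_le_sum fun i _ => ?_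
    split_ifs with hi
    · have := (pp (rel_le _ _ _) (hV.2 n i)).1 ((bit σ n i 12).2 hi)
      have : (1400000000000 : ℝ) ≤ look (mask σ n i) (rel j n i) := by exact_mod_cast this
      unfold cv; linarith
    · exact cv_nn _ _ _ _
  have a2 : ∑ s ∈ inc (hub (n + 1)), (if s ∈ σ then cost (n + 1) s else 0) ≤
      ∑ s ∈ inc (hub (n + 1)), cost (p := p) (n + 1) s := Finset.sum_le_sum fun s _ => by
    split_ifs
    · exact le_rfl
    · exact cost_nn _ _
  generalize (∑ s ∈ inc (hub (n + 1)), if s ∈ σ then cost (n + 1) s else 0) = T at a2 ⊢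
  rw [sum_hub, sum_low] at a2
  simp only [cost_lat] at a2
  simp only [cost, if_true, Nat.left_eq_add, one_ne_zero, if_false, Finset.sum_const,
    Finset.card_univ, Fintype.card_fin, nsmul_eq_mul, NN, F_succ, mul_zero] at a2
  have a3 := Lam_le (p := p) n
  have a4 : (50 : ℝ) * p.F n < 2 * U σ n := by exact_mod_cast h
  unfold Lam at a3
  push_cast at a2
  have : (0 : ℝ) ≤ p.F n := Nat.cast_nonneg _
  linarith

lemma beta_nn (hV : Val σ j) (n : ℕ) : 0 ≤ beta σ j n :=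
  le_trans (by split_ifs <;> positivity) (beta_ge hV n)

def lev : p.Jn → ℕ
  | hub m => m - 1
  | vj n _ _ => n

def levS : p.Sg → ℕ
  | va n _ _ => n
  | _ => 0

lemma summ (hV : Val σ j) : Summable fun n => w σ n * beta σ j n := by
  obtain ⟨B, hB⟩ := (hV.1.image levS).bddAbove
  refine summable_of_ne_finset_zero (s := Finset.range (B + lev j + 1)) fun n hn => ?_
  have hn : B + lev j < n := by simpa [Nat.lt_succ_iff] using hn
  have no : ∀ i e, va n i e ∉ σ := fun i e h => by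
    have : n ≤ B := hB ⟨_, h, rfl⟩
    omega
  have h1 : ∀ i, cv σ j n i = 0 := by
    intro i
    have e1 : mask σ n i = 0 := by
      apply Nat.eq_of_testBit_eq
      intro k
      by_cases hk : k < 13
      · simp [mask, Nat.testBit_ofBits_lt _ _ hk, no]
      · simp [mask, Nat.testBit_ofBits_ge _ _ (not_lt.1 hk)]
    have e2 : rel j n i = 8 := by
      rcases j with _ | ⟨n', _, _⟩
      · rfl
      · simp only [lev] at hn
        simp only [rel]
        rw [if_neg (by omega)]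
    simp [cv, e1, e2, look0]
  have h2 : ¬ unh σ n := by simp [unh, U, no]
  simp [beta, h1, sp, h2]

lemma bank_move (hV : Val σ j) (hV' : Val σ' j') (h : σ ⊆ σ') (n0 n1 : ℕ) (x y : ℝ)
    (hx : ∀ n, ∑ i, cv σ' j' n i ≤ ∑ i, cv σ j n i + if n = n0 then x else 0)
    (hy : sp σ n1 + y ≤ sp σ' n1) : bank σ' j' ≤ bank σ j + w σ n0 * x - w σ n1 * y := by
  have s1 : HasSum (fun n => w σ n * beta σ j n + (if n = n0 then w σ n0 * x else 0) -
      if n = n1 then w σ n1 * y else 0) (bank σ j + w σ n0 * x - w σ n1 * y) :=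
    ((summ hV).hasSum.add (hasSum_ite_eq n0 _)).sub (hasSum_ite_eq n1 _)
  refine hasSum_le (fun n => ?_) (summ hV').hasSum s1
  have a := mul_le_mul_of_nonneg_right (w_mono h n) (beta_nn hV' n)
  have b : beta σ' j' n ≤ beta σ j n + (if n = n0 then x else 0) - if n = n1 then y else 0 := by
    have := hx n
    have := sp_mono h n
    unfold beta
    by_cases e : n = n1
    · subst e; rw [if_pos rfl]; linarith
    · rw [if_neg e]; linarith
  have c := mul_le_mul_of_nonneg_left b (w_pos σ n).le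
  refine a.trans (c.trans (le_of_eq ?_))
  split_ifs <;> simp_all <;> ring

lemma cv_one {n0 : ℕ} {i0 : Fin (p.NN n0)}
    (h : ∀ n (i : Fin (p.NN n)), ¬ (n0 = n ∧ (i0 : ℕ) = i) →
      mask σ' n i = mask σ n i ∧ rel j' n i = rel j n i) {x : ℝ}
    (hx : cv σ' j' n0 i0 ≤ cv σ j n0 i0 + x) (n : ℕ) :
    ∑ i, cv σ' j' n i ≤ ∑ i, cv σ j n i + if n = n0 then x else 0 := by
  have e : ∀ n (i : Fin (p.NN n)), ¬ (n0 = n ∧ (i0 : ℕ) = i) → cv σ' j' n i = cv σ j n i :=
    fun n i hh => by simp only [cv, h n i hh]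
  split_ifs with hn
  · subst hn
    rw [← Finset.add_sum_erase _ _ (Finset.mem_univ i0),
      ← Finset.add_sum_erase _ _ (Finset.mem_univ i0), Finset.sum_congr rfl fun i hi =>
        e n i fun hh => Finset.ne_of_mem_erase hi (Fin.ext hh.2.symm)]
    linarith
  · rw [add_zero, Finset.sum_congr rfl fun i _ => e n i fun hh => hn hh.1.symm]

lemma val_one {n0 : ℕ} {i0 : Fin (p.NN n0)} (hV : Val σ j) (hf : σ'.Finite)
    (h : ∀ n (i : Fin (p.NN n)), ¬ (n0 = n ∧ (i0 : ℕ) = i) →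
      mask σ' n i = mask σ n i ∧ rel j' n i = rel j n i)
    (hd : dom (mask σ' n0 i0) (rel j' n0 i0)) : Val σ' j' := by
  refine ⟨hf, fun n i => ?_⟩
  by_cases e : n0 = n ∧ (i0 : ℕ) = i
  · obtain ⟨rfl, e⟩ := e
    rwa [← Fin.ext e]
  · rw [(h n i e).1, (h n i e).2]; exact hV.2 n i

/-- `j` lies outside every valve except possibly `(n0, i0)`. -/
def Out (j : p.Jn) (n0 : ℕ) (i0 : Fin (p.NN n0)) : Prop :=
  ∀ n (i : Fin (p.NN n)), ¬ (n0 = n ∧ (i0 : ℕ) = i) → rel j n i = 8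

lemma out_hub (m n0 : ℕ) (i0 : Fin (p.NN n0)) : Out (hub m) n0 i0 := fun _ _ _ => rfl
lemma out_vj (n0 : ℕ) (i0 : Fin (p.NN n0)) (c : Fin 8) : Out (vj n0 i0 c) n0 i0 :=
  fun _ _ h => if_neg h

lemma same_ins {n0 : ℕ} {i0 : Fin (p.NN n0)} (ho : Out j n0 i0) (e : Fin 13) (o : ℕ) :
    ∀ n (i : Fin (p.NN n)), ¬ (n0 = n ∧ (i0 : ℕ) = i) →
      mask (insert (va n0 i0 e) σ) n i = mask σ n i ∧ rel (loc n0 i0 o) n i = rel j n i :=
  fun n i h => ⟨mask_ne fun e' he => h (by cases he; exact ⟨rfl, rfl⟩),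
    by rw [rel_loc' _ h, ho n i h]⟩

lemma same_nil {n0 : ℕ} {i0 : Fin (p.NN n0)} (ho : Out j n0 i0) (o : ℕ) :
    ∀ n (i : Fin (p.NN n)), ¬ (n0 = n ∧ (i0 : ℕ) = i) →
      mask σ n i = mask σ n i ∧ rel (loc n0 i0 o) n i = rel j n i :=
  fun n i h => ⟨rfl, by rw [rel_loc' _ h, ho n i h]⟩

lemma rel_vj (n : ℕ) (i : Fin (p.NN n)) (c : Fin 8) : rel (vj n i c) n i = c := by simp [rel]

lemma q12 {m : ℕ} (hV : Val σ (hub m)) (n : ℕ) (i : Fin (p.NN n)) :
    Q1 (mask σ n i) (look (mask σ n i) 8) ∧ Q2 (mask σ n i) (look (mask σ n i) 8) :=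
  (pp le_rfl (hV.2 n i)).2.1 rfl

lemma q34 {n : ℕ} {i : Fin (p.NN n)} {c : Fin 8} (hV : Val σ (vj n i c)) :
    Q3 (mask σ n i) c (look (mask σ n i) c) ∧ Q4 (mask σ n i) c (look (mask σ n i) c) := by
  have := hV.2 n i
  rw [rel_vj] at this
  exact (pp c.2.le this).2.2 c.2

lemma vj_cases {n : ℕ} {i : Fin (p.NN n)} {c : Fin 8} {s : p.Sg} (h : s ∈ inc (vj n i c)) :
    ∃ e, (su e = c ∨ sv e = c) ∧ s = va n i e := by
  simp only [inc, Finset.mem_image, Finset.mem_filter, Finset.mem_univ, true_and] at h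
  obtain ⟨e, h, rfl⟩ := h
  exact ⟨e, h, rfl⟩

lemma h1 {s : p.Sg} (hV : Val σ j) (hs : s ∈ inc j) (hn : s ∉ σ) :
    Val (insert s σ) (p.net.other s j) := by
  rcases j with m | ⟨n, i, c⟩
  · rcases hub_cases hs with ⟨i, rfl⟩ | ⟨n, i, rfl, rfl⟩ | ⟨hh, k, hk⟩
    · rw [o_head]
      refine val_one hV (hV.1.insert _) (same_ins (out_hub _ _ _) _ _) ?_
      rw [mask_ins, rel_loc]
      exact ((q12 hV m i).1.1 fun h => hn ((bit σ m i 0).1 h)).1
    · rw [o_tail]
      refine val_one hV (hV.1.insert _) (same_ins (out_hub _ _ _) _ _) ?_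
      rw [mask_ins, rel_loc]
      exact ((q12 hV n i).2.1 fun h => hn ((bit σ n i 12).1 h)).1
    · rw [hk]
      exact ⟨hV.1.insert _, fun n i => by rw [mask_ne (hh n i)]; exact hV.2 n i⟩
  · obtain ⟨e, he, rfl⟩ := vj_cases hs
    rw [o_vj]
    refine val_one hV (hV.1.insert _) (same_ins (out_vj _ _ _) _ _) ?_
    rw [mask_ins, rel_loc]
    exact (q34 hV).1.1 e he fun h => hn ((bit σ n i e).1 h)

lemma all_bits {n : ℕ} {i : Fin (p.NN n)} {c : Fin 8} (ha : ∀ s ∈ inc (vj n i c), s ∈ σ) :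
    ∀ e : Fin 13, su e = c ∨ sv e = c → (mask σ n i).testBit e := fun e he =>
  (bit σ n i e).2 (ha _ (Finset.mem_image_of_mem _ (Finset.mem_filter.2 ⟨Finset.mem_univ _, he⟩)))

lemma h2 {s : p.Sg} (hV : Val σ j) (ha : ∀ s ∈ inc j, s ∈ σ) (hs : s ∈ inc j) :
    Val σ (p.net.other s j) := by
  rcases j with m | ⟨n, i, c⟩
  · rcases hub_cases hs with ⟨i, rfl⟩ | ⟨n, i, rfl, rfl⟩ | ⟨hh, k, hk⟩
    · rw [o_head]
      refine val_one hV hV.1 (same_nil (out_hub _ _ _) _) ?_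
      rw [rel_loc]
      exact ((q12 hV m i).1.2 ((bit σ m i 0).2 (ha _ hs))).1
    · rw [o_tail]
      refine val_one hV hV.1 (same_nil (out_hub _ _ _) _) ?_
      rw [rel_loc]
      exact ((q12 hV n i).2.2 ((bit σ n i 12).2 (ha _ hs))).1
    · rw [hk]; exact hV
  · obtain ⟨e, he, rfl⟩ := vj_cases hs
    rw [o_vj]
    refine val_one hV hV.1 (same_nil (out_vj _ _ _) _) ?_
    rw [rel_loc]
    exact ((q34 hV).2 (all_bits ha)).1 e he

end Par
end Pool.Agent.H.GRW
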