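import Pool.Agent.H.MP_4770bc_pr.F

/-! The Lyapunov inequalities. -/

namespace Pool.Agent.H.GRW
namespace Par

open Function Valve Jn Sg
open scoped Classical

variable {p : Par} {σ σ' : Set p.Sg} {j j' : p.Jn}

lemma mv_valve {n0 : ℕ} {i0 : Fin (p.NN n0)} {o : ℕ} (ho : o ≤ 9) (hV : Val σ j)
    (hV' : Val σ' (loc n0 i0 o)) (h : σ ⊆ σ')
    (hs : ∀ n (i : Fin (p.NN n)), ¬ (n0 = n ∧ (i0 : ℕ) = i) →
      mask σ' n i = mask σ n i ∧ rel (loc n0 i0 o) n i = rel j n i)
    (n1 : ℕ) (y : ℝ) (hy : sp σ n1 + y ≤ sp σ' n1) :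
    Psi σ' (loc n0 i0 o) ≤ psi σ n0 + bank σ j + w σ n0 * (((nv (mask σ' n0 i0) o : ℝ) -
      look (mask σ n0 i0) (rel j n0 i0)) / 4000000000000) - w σ n1 * y := by
  have a := base_loc h n0 i0 ho
  have b := bank_move hV hV' h n0 n1 (cv σ' (loc n0 i0 o) n0 i0 - cv σ j n0 i0) y
    (cv_one hs (by linarith)) hy
  simp only [cv, rel_loc] at b
  unfold Psi nv
  split_ifs at a ⊢ <;> push_cast <;> linarith

lemma mv_plain {s : p.Sg} {m k : ℕ} (hV : Val σ (hub m)) (hh : ∀ n i e, s ≠ va n i e)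
    (n1 : ℕ) (y : ℝ) (hy : sp σ n1 + y ≤ sp (insert s σ) n1) :
    Psi (insert s σ) (hub k) ≤ psi σ k + bank σ (hub m) - w σ n1 * y := by
  have hV' : Val (insert s σ) (hub k) :=
    ⟨hV.1.insert _, fun n i => by rw [mask_ne (hh n i)]; exact hV.2 n i⟩
  have a := (base_hub (insert s σ) k).trans (psi_mono (Set.subset_insert _ _) k)
  have b := bank_move hV hV' (Set.subset_insert _ _) 0 n1 0 y (fun n => by
    simp only [cv, mask_ne (hh n _), rel, ite_self, add_zero, le_refl]) hy
  unfold Psi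
  linarith

lemma oth_le (e : Fin 13) (c : ℕ) : oth e c ≤ 9 := by
  obtain ⟨h1, h2, -⟩ := s_facts e
  unfold oth
  split_ifs <;> omega

lemma m_head (m : ℕ) (i : Fin (p.NN m)) : va m i 0 ∈ inc (hub m) := by simp [inc]
lemma m_up (m : ℕ) (i : Fin (p.F m)) : fa m i ∈ inc (hub m) := by simp [inc]
lemma m_lat (m : ℕ) (j : p.lat m) : la' m j ∈ inc (hub m) := by
  simp only [inc, Finset.mem_union, Finset.mem_image, Finset.mem_univ, true_and]
  exact .inl (.inr ⟨j, rfl⟩)
lemma m_tail (n : ℕ) (i : Fin (p.NN n)) : va n i 12 ∈ inc (hub (n + 1)) := by simp [inc, low]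
lemma m_down (n : ℕ) (i : Fin (p.F n)) : fa n i ∈ inc (hub (n + 1)) := by simp [inc, low]

lemma w_unh {n : ℕ} (h : unh σ n) : w σ (n + 1) = w σ n * rho n := by simp [w, h]

lemma h3_hub {n : ℕ} (hV : Val σ (hub (n + 1))) : ∑ s ∈ inc (hub (n + 1)),
    (if s ∈ σ then 0 else Psi (insert s σ) (p.net.other s (hub (n + 1))) - Psi σ (hub (n + 1)))
      ≤ 0 := by
  have wp := w_pos σ n
  have ws := w_succ σ n
  have wu : unh σ n → w σ (n + 1) ≤ w σ n / 2 := fun h => by
    have := (rho_bd n).2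
    rw [w_unh h]; nlinarith
  have bs := base_hub' σ n
  have ps := psi_succ σ n
  set c : ℝ := if unh σ n then 0 else w σ n with hc
  have c0 : 0 ≤ c := by rw [hc]; split_ifs <;> linarith
  rw [sum_hub, sum_low]
  have A : ∀ i, (if va (n + 1) i 0 ∈ σ then 0 else Psi (insert (va (n + 1) i 0) σ)
      (p.net.other (va (n + 1) i 0) (hub (n + 1))) - Psi σ (hub (n + 1))) ≤ c * (11 / 100) := by
    intro i
    split_ifs with hn
    · positivity
    have hV' := h1 hV (m_head _ i) hn
    rw [o_head] at hV' ⊢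
    have a := mv_valve (by norm_num) hV hV' (Set.subset_insert _ _)
      (same_ins (out_hub _ _ _) _ _) n _ (sp_ins (m_head _ i) hn)
    have b := ((q12 hV (n + 1) i).1.1 fun h => hn ((bit σ _ i 0).1 h)).2
    rw [mask_ins] at a
    simp only [nv, rel, cost, if_true] at a
    have b' : ((look (mask σ (n + 1) i ||| 2 ^ (0 : Fin 13).1) (min 0 8) : ℤ) : ℝ) ≤
        look (mask σ (n + 1) i) 8 + 360000000000 := by exact_mod_cast b
    have wp' := w_pos σ (n + 1)
    have e : w σ (n + 1) * ((((look (mask σ (n + 1) i ||| 2 ^ (0 : Fin 13).1) (min 0 8) : ℤ) +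
        (if 0 = 9 then 4000000000000 else 0 : ℤ) : ℤ) - (look (mask σ (n + 1) i) 8 : ℝ)) /
        4000000000000) ≤ w σ (n + 1) * (9 / 100) := by
      refine mul_le_mul_of_nonneg_left ?_ wp'.le
      rw [if_neg (by norm_num), add_zero]; linarith
    unfold Psi at a ⊢
    by_cases hu : unh σ n
    · have := wu hu
      rw [if_pos hu] at a hc; rw [hc]; linarith
    · rw [if_neg hu] at a hc; rw [hc]; linarith
  have B : ∀ i, (if fa (n + 1) i ∈ σ then 0 else Psi (insert (fa (n + 1) i) σ)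
      (p.net.other (fa (n + 1) i) (hub (n + 1))) - Psi σ (hub (n + 1))) ≤ c * (51 / 50) := by
    intro i
    split_ifs with hn
    · positivity
    rw [o_up]
    have a := mv_plain (k := n + 1 + 1) hV (by simp) n _ (sp_ins (m_up _ i) hn)
    rw [psi_succ] at a
    simp only [cost, if_true] at a
    unfold Psi at a ⊢
    by_cases hu : unh σ n
    · have := wu hu
      rw [if_pos hu] at a hc; rw [hc]; linarith
    · rw [if_neg hu] at a hc; rw [hc]; linarith
  have C : ∀ j, (if la' (n + 1) j ∈ σ then 0 else Psi (insert (la' (n + 1) j) σ)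
      (p.net.other (la' (n + 1) j) (hub (n + 1))) - Psi σ (hub (n + 1))) ≤ c * ((j : ℝ) + 1) := by
    intro j
    split_ifs with hn
    · positivity
    rw [o_lat]
    have a := mv_plain (k := j) hV (by
      obtain ⟨a, b, h, e⟩ := la'_la (n + 1) j
      simp [e]) n _ (sp_ins (m_lat _ j) hn)
    rw [cost_lat] at a
    have b := psi_le σ j (n + 1)
    have d := mul_le_mul_of_nonneg_left ws (Nat.cast_nonneg (α := ℝ) j)
    unfold Psi at a ⊢
    by_cases hu : unh σ n
    · rw [if_pos hu] at a hc; rw [hc]; linarith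
    · rw [if_neg hu] at a hc; rw [hc]; linarith
  have D : ∀ i, (if va n i 12 ∈ σ then 0 else Psi (insert (va n i 12) σ)
      (p.net.other (va n i 12) (hub (n + 1))) - Psi σ (hub (n + 1))) ≤
      (if va n i 12 ∈ σ then c * (61 / 100) else 0) - c * (61 / 100) := by
    intro i
    split_ifs with hn
    · simp
    have hV' := h1 hV (m_tail _ i) hn
    rw [o_tail] at hV' ⊢
    have a := mv_valve (by norm_num) hV hV' (Set.subset_insert _ _)
      (same_ins (out_hub _ _ _) _ _) n 0 (by simpa using sp_mono (Set.subset_insert _ _) n)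
    have b := ((q12 hV n i).2.1 fun h => hn ((bit σ _ i 12).1 h)).2
    rw [mask_ins] at a
    simp only [nv, rel] at a
    have b' : ((look (mask σ n i ||| 2 ^ (12 : Fin 13).1) (min 7 8) : ℤ) : ℝ) ≤
        look (mask σ n i) 8 + 1480000000000 := by exact_mod_cast b
    have e : w σ n * ((((look (mask σ n i ||| 2 ^ (12 : Fin 13).1) (min 7 8) : ℤ) +
        (if 7 = 9 then 4000000000000 else 0 : ℤ) : ℤ) - (look (mask σ n i) 8 : ℝ)) /
        4000000000000) ≤ w σ n * (37 / 100) := by
      refine mul_le_mul_of_nonneg_left ?_ wp.le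
      rw [if_neg (by norm_num), add_zero]; linarith
    have : c ≤ w σ n := by rw [hc]; split_ifs <;> linarith
    unfold Psi at a ⊢
    linarith
  have E : ∀ i, (if fa n i ∈ σ then 0 else Psi (insert (fa n i) σ)
      (p.net.other (fa n i) (hub (n + 1))) - Psi σ (hub (n + 1))) ≤ 0 := by
    intro i
    split_ifs with hn
    · exact le_rfl
    rw [o_down]
    have a := mv_plain (s := fa n i) (k := n) hV (by simp) n 0
      (by simpa using sp_mono (Set.subset_insert _ _) n)
    unfold Psi at a ⊢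
    linarith
  have sA := Finset.sum_le_sum fun i (_ : i ∈ Finset.univ) => A i
  have sB := Finset.sum_le_sum fun i (_ : i ∈ Finset.univ) => B i
  have sC := Finset.sum_le_sum fun i (_ : i ∈ Finset.univ) => C i
  have sD := Finset.sum_le_sum fun i (_ : i ∈ Finset.univ) => D i
  have sE := Finset.sum_nonpos fun i (_ : i ∈ Finset.univ) => E i
  rw [Finset.sum_const, Finset.card_univ, Fintype.card_fin, nsmul_eq_mul] at sA sB
  rw [← Finset.mul_sum] at sC
  rw [Finset.sum_sub_distrib, ← Finset.sum_filter, Finset.sum_const, Finset.sum_const,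
    Finset.card_univ, Fintype.card_fin, nsmul_eq_mul, nsmul_eq_mul] at sD
  refine (add_le_add (add_le_add (add_le_add sA sB) sC) (add_le_add sD sE)).trans ?_
  have l := Lam_le (p := p) n
  change _ + c * Lam (n + 1) + ((U σ n : ℝ) * _ - _ + 0) ≤ 0
  simp only [NN, F_succ]
  push_cast
  by_cases hu : unh σ n
  · rw [if_pos hu] at hc; rw [hc]; simp
  · have : (2 : ℝ) * U σ n ≤ 50 * p.F n := by
      have := not_lt.1 hu
      exact_mod_cast this
    have f0 : (0 : ℝ) ≤ p.F n := Nat.cast_nonneg _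
    nlinarith

lemma h4_hub {n : ℕ} (hV : Val σ (hub (n + 1))) (ha : ∀ s ∈ inc (hub (n + 1)), s ∈ σ) :
    ∑ s ∈ inc (hub (n + 1)),
      (Psi σ (p.net.other s (hub (n + 1))) - Psi σ (hub (n + 1))) / ln s ≤ 0 := by
  have wp := w_pos σ n
  have wp' := w_pos σ (n + 1)
  have ps := psi_succ σ n
  have fp := p.F_pos n
  have hu : unh σ n := by
    have : U σ n = p.NN n := by
      rw [U, Finset.filter_true_of_mem fun i _ => ha _ (m_tail n i)]; simp
    unfold unh
    rw [this]; unfold NN; omega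
  have bs : base σ (hub (n + 1)) = psi σ (n + 1) := by
    simp only [base]
    rw [if_neg fun ⟨i, hi⟩ => hi (ha _ (m_tail n i)), sub_zero]
  set fl : ℝ := if flag σ (n + 1) then 1 else 0 with hfl
  rw [sum_hub, sum_low]
  have bk : ∀ k, bank σ (hub k) = bank σ (hub (n + 1)) := fun k => rfl
  have A : ∀ i, (Psi σ (p.net.other (va (n + 1) i 0) (hub (n + 1))) - Psi σ (hub (n + 1))) /
      ln (va (n + 1) i 0) ≤ w σ (n + 1) * (1 / 4000000 + fl / 5000) := by
    intro i
    have hV' := h2 hV ha (m_head _ i)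
    rw [o_head] at hV' ⊢
    have a := mv_valve (by norm_num) hV hV' subset_rfl (same_nil (out_hub _ _ _) _) n 0 (by simp)
    have b := ((q12 hV (n + 1) i).1.2 ((bit σ _ i 0).2 (ha _ (m_head _ i)))).2
    simp only [nv, rel] at a
    have b' : ((look (mask σ (n + 1) i) (min 0 8) : ℤ) : ℝ) ≤
        look (mask σ (n + 1) i) 8 + 2000000 + 1600000000 * fl := by
      rw [show min 0 8 = 0 from rfl]
      split_ifs at b with h
      · have : ((look (mask σ (n + 1) i) 0 : ℤ) : ℝ) ≤ look (mask σ (n + 1) i) 8 + 2000000 + 0 := by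
          exact_mod_cast b
        have : 0 ≤ fl := by rw [hfl]; split_ifs <;> norm_num
        linarith
      · rw [hfl, if_pos ⟨i, fun hh => h ((bit σ _ i 12).2 hh)⟩, mul_one]
        exact_mod_cast b
    have e : w σ (n + 1) * ((((look (mask σ (n + 1) i) (min 0 8) : ℤ) +
        (if 0 = 9 then 4000000000000 else 0 : ℤ) : ℤ) - (look (mask σ (n + 1) i) 8 : ℝ)) /
        4000000000000) ≤ w σ (n + 1) * (2 / 4000000 + 2 * fl / 5000) := by
      refine mul_le_mul_of_nonneg_left ?_ wp'.le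
      rw [if_neg (by norm_num), add_zero]; linarith
    rw [show ((ln (va (n + 1) i 0) : ℕ) : ℝ) = 2 by simp [ln, sl]]
    unfold Psi at a ⊢
    linarith
  have B : ∀ i, (Psi σ (p.net.other (fa (n + 1) i) (hub (n + 1))) - Psi σ (hub (n + 1))) /
      ln (fa (n + 1) i) ≤ w σ (n + 1) * (1 / 2 - fl / 100) := by
    intro i
    rw [o_up, show ((ln (fa (n + 1) i) : ℕ) : ℝ) = 2 by simp [ln]]
    unfold Psi
    rw [bk, bs]
    simp only [base]
    rw [psi_succ σ (n + 1), hfl]
    split_ifs <;> linarith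
  have C : ∀ j, (Psi σ (p.net.other (la' (n + 1) j) (hub (n + 1))) - Psi σ (hub (n + 1))) /
      ln (la' (n + 1) j) ≤ w σ (n + 1) / 2 * ((j : ℝ) + 1) := by
    intro j
    rw [o_lat, show ((ln (la' (n + 1) j) : ℕ) : ℝ) = 2 by
      obtain ⟨a, b, h, e⟩ := la'_la (n + 1) j
      simp [e, ln]]
    unfold Psi
    rw [bk, bs]
    have a := base_hub σ j
    have b := psi_le σ j (n + 1)
    linarith
  have D : ∀ i, (Psi σ (p.net.other (va n i 12) (hub (n + 1))) - Psi σ (hub (n + 1))) /
      ln (va n i 12) ≤ -(w σ n * (1 / 4000000)) := by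
    intro i
    have hV' := h2 hV ha (m_tail _ i)
    rw [o_tail] at hV' ⊢
    have a := mv_valve (by norm_num) hV hV' subset_rfl (same_nil (out_hub _ _ _) _) n 0 (by simp)
    have b := ((q12 hV n i).2.2 ((bit σ _ i 12).2 (ha _ (m_tail _ i)))).2
    simp only [nv, rel] at a
    have b' : ((look (mask σ n i) (min 7 8) : ℤ) : ℝ) + 3959992000000 ≤
        look (mask σ n i) 8 + 4000000000000 := by exact_mod_cast b
    have e : w σ n * ((((look (mask σ n i) (min 7 8) : ℤ) +
        (if 7 = 9 then 4000000000000 else 0 : ℤ) : ℤ) - (look (mask σ n i) 8 : ℝ)) /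
        4000000000000) ≤ w σ n * (1 - 3959992 / 4000000) := by
      refine mul_le_mul_of_nonneg_left ?_ wp.le
      rw [if_neg (by norm_num), add_zero]; linarith
    rw [show ((ln (va n i 12) : ℕ) : ℝ) = 3959992 by simp [ln, sl]]
    unfold Psi at a ⊢
    linarith
  have E : ∀ i, (Psi σ (p.net.other (fa n i) (hub (n + 1))) - Psi σ (hub (n + 1))) /
      ln (fa n i) ≤ -(w σ n * (1 / 2)) := by
    intro i
    rw [o_down, show ((ln (fa n i) : ℕ) : ℝ) = 2 by simp [ln]]
    unfold Psi
    rw [bk, bs]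
    have a := base_hub σ n
    linarith
  have sA := Finset.sum_le_sum fun i (_ : i ∈ Finset.univ) => A i
  have sB := Finset.sum_le_sum fun i (_ : i ∈ Finset.univ) => B i
  have sC := Finset.sum_le_sum fun i (_ : i ∈ Finset.univ) => C i
  have sD := Finset.sum_le_sum fun i (_ : i ∈ Finset.univ) => D i
  have sE := Finset.sum_le_sum fun i (_ : i ∈ Finset.univ) => E i
  rw [Finset.sum_const, Finset.card_univ, Fintype.card_fin, nsmul_eq_mul] at sA sB sD sE
  rw [← Finset.mul_sum] at sC
  refine (add_le_add (add_le_add (add_le_add sA sB) sC) (add_le_add sD sE)).trans ?_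
  have l := Lam_bd (p := p) (n + 1)
  have l0 := Lam_nn (p := p) (n + 1)
  change _ + _ * Lam (n + 1) + _ ≤ 0
  simp only [NN, F_succ, w_unh hu, rho] at l ⊢
  push_cast at l ⊢
  have f0 : (0 : ℝ) ≤ p.F n := Nat.cast_nonneg _
  set x : ℝ := 1 / ((n : ℝ) + 2) ^ 2 with hx
  have x0 : 0 ≤ x := by positivity
  have l1 : 10 * Lam (p := p) (n + 1) ≤ 2 * p.F n * x := by
    rw [hx, mul_one_div, le_div_iff₀ (by positivity)]
    rwa [show (n : ℝ) + 2 = n + 1 + 1 by ring]
  have t1 := mul_le_mul_of_nonneg_left l1 wp.le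
  have t2 : 0 ≤ w σ n * x * Lam (p := p) (n + 1) := by positivity
  have t3 : 0 ≤ w σ n * x * p.F n := by positivity
  nlinarith

lemma h3_vj {n : ℕ} {i : Fin (p.NN n)} {c : Fin 8} (hV : Val σ (vj n i c)) :
    ∑ s ∈ inc (vj n i c),
    (if s ∈ σ then 0 else Psi (insert s σ) (p.net.other s (vj n i c)) - Psi σ (vj n i c)) ≤ 0 := by
  have wp := w_pos σ n
  have q : ((∑ e : Fin 13, (if su e = c ∨ sv e = c then (if (mask σ n i).testBit e then 0 else
      nv (mask σ n i ||| 2 ^ e.1) (oth e c) - look (mask σ n i) c) else 0) : ℤ) : ℝ) ≤ 0 := by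
    exact_mod_cast (q34 hV).1.2
  rw [sum_vj]
  refine le_trans ?_ (mul_nonpos_of_nonneg_of_nonpos
    (show 0 ≤ w σ n / 4000000000000 by positivity) q)
  push_cast
  rw [Finset.mul_sum]
  refine Finset.sum_le_sum fun e _ => ?_
  simp only [bit]
  split_ifs with he hn
  · simp
  · have hV' := h1 hV (Finset.mem_image_of_mem _
      (Finset.mem_filter.2 ⟨Finset.mem_univ _, he⟩)) hn
    rw [o_vj] at hV' ⊢
    have a := mv_valve (oth_le _ _) hV hV' (Set.subset_insert _ _)
      (same_ins (out_vj _ _ _) _ _) n 0 (by simpa using sp_mono (Set.subset_insert _ _) n)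
    rw [mask_ins, rel_vj] at a
    have eb : base σ (vj n i c) = psi σ n := rfl
    unfold Psi at a ⊢
    linarith
  · simp

lemma h4_vj {n : ℕ} {i : Fin (p.NN n)} {c : Fin 8} (hV : Val σ (vj n i c))
    (ha : ∀ s ∈ inc (vj n i c), s ∈ σ) : ∑ s ∈ inc (vj n i c),
      (Psi σ (p.net.other s (vj n i c)) - Psi σ (vj n i c)) / ln s ≤ 0 := by
  have wp := w_pos σ n
  have q : ((∑ e : Fin 13, (if su e = c ∨ sv e = c then
      (nv (mask σ n i) (oth e c) - look (mask σ n i) c) * wt e else 0) : ℤ) : ℝ) ≤ 0 := by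
    exact_mod_cast ((q34 hV).2 (all_bits ha)).2
  rw [sum_vj]
  refine le_trans ?_ (mul_nonpos_of_nonneg_of_nonpos
    (show 0 ≤ w σ n / 4000000000000 / 9899980000 by positivity) q)
  push_cast
  rw [Finset.mul_sum]
  refine Finset.sum_le_sum fun e _ => ?_
  split_ifs with he
  · have hV' := h2 hV ha (Finset.mem_image_of_mem _ (Finset.mem_filter.2 ⟨Finset.mem_univ _, he⟩))
    rw [o_vj] at hV' ⊢
    have a := mv_valve (oth_le _ _) hV hV' subset_rfl (same_nil (out_vj _ _ _) _) n 0 (by simp)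
    rw [rel_vj] at a
    have l : (0 : ℝ) < sl e := by have := (s_facts e).2.2.2.2.2.2.1; positivity
    rw [wt_eq, show w σ n / 4000000000000 / 9899980000 * (((nv (mask σ n i) (oth e c) : ℝ) -
      look (mask σ n i) c) * (9899980000 / sl e)) = (w σ n * (((nv (mask σ n i) (oth e c) : ℝ) -
      look (mask σ n i) c) / 4000000000000)) / sl e by field_simp]
    refine div_le_div_of_nonneg_right ?_ l.le
    have eb : base σ (vj n i c) = psi σ n := rfl
    unfold Psi at a ⊢
    linarith
  · simp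

lemma psi_lev (σ : Set p.Sg) (j : p.Jn) : psi σ (lev j) ≤ base σ j := by
  rcases j with (_ | n) | _
  · simp [lev, psi, base]
  · have := base_hub' σ n
    have := psi_succ σ n
    have := w_pos σ n
    simp only [lev, Nat.add_sub_cancel]
    linarith
  · exact le_rfl

lemma lower (hV : Val σ j) : ∃ k : ℕ, (lev j : ℝ) * (1 / 4) ^ k + k / 2 ≤ Psi σ j := by
  let cnt : ℕ → ℕ := fun n => ((Finset.range n).filter (unh σ)).card
  have a : ∀ n, (1 / 4 : ℝ) ^ cnt n ≤ w σ n := by
    intro n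
    induction n with
    | zero => simp [cnt, w]
    | succ n ih =>
      simp only [cnt, w, Finset.range_add_one, Finset.filter_insert]
      split_ifs
      · rw [Finset.card_insert_of_notMem (by simp), pow_succ]
        exact mul_le_mul ih (rho_bd n).1 (by norm_num) (w_pos σ n).le
      · simpa using ih
  have b : (lev j : ℝ) * w σ (lev j) ≤ psi σ (lev j) := by
    simpa [psi] using Finset.card_nsmul_le_sum (Finset.range (lev j)) (w σ) (w σ (lev j))
      fun k hk => w_anti σ (Finset.mem_range.1 hk).le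
  have c : (cnt (lev j) : ℝ) * (1 / 2) ≤ bank σ j := by
    refine le_trans ?_ ((summ hV).sum_le_tsum ((Finset.range (lev j)).filter (unh σ))
      fun n _ => mul_nonneg (w_pos σ n).le (beta_nn hV n))
    rw [← nsmul_eq_mul]
    refine Finset.card_nsmul_le_sum _ _ _ fun n hn => ?_
    have h1 := beta_ge hV n
    rw [if_pos (Finset.mem_filter.1 hn).2] at h1
    have h2 : (2 : ℝ) ^ n ≤ p.F n := by
      have : 2 ^ n ≤ p.F n := Nat.le_mul_of_pos_left _ p.M1
      exact_mod_cast this
    refine le_trans ?_ (mul_le_mul (w_low σ n) (h2.trans h1) (by positivity) (w_pos σ n).le)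
    rw [div_mul_eq_mul_div, le_div_iff₀ (by positivity)]
    have : (0 : ℝ) < 2 ^ n := by positivity
    nlinarith
  refine ⟨cnt (lev j), ?_⟩
  have d := mul_le_mul_of_nonneg_left (a (lev j)) (Nat.cast_nonneg (α := ℝ) (lev j))
  have e := psi_lev σ j
  unfold Psi
  linarith

theorem good (p : Par) : Net.Good p.net (hub 0) Val Psi where
  h0 := ⟨Set.finite_empty, fun n i => by
    have : mask (∅ : Set p.Sg) n i = 0 := by
      apply Nat.eq_of_testBit_eq
      intro k
      by_cases hk : k < 13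
      · simp [mask, Nat.testBit_ofBits_lt _ _ hk]
      · simp [mask, Nat.testBit_ofBits_ge _ _ (not_lt.1 hk)]
    rw [this]; exact dom0⟩
  h1 := fun _ _ _ => h1
  h2 := fun _ _ _ => h2
  h3 := by
    rintro σ ((_ | n) | _) hV hj
    · exact absurd rfl hj
    · exact h3_hub hV
    · exact h3_vj hV
  h4 := by
    rintro σ ((_ | n) | _) hV hj ha
    · exact absurd rfl hj
    · exact h4_hub hV ha
    · exact h4_vj hV ha
  h5 := fun σ j hV => by
    obtain ⟨k, hk⟩ := lower hV
    exact le_trans (by positivity) hk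
  h6 := fun K => by
    obtain ⟨k0, hk0⟩ := exists_nat_ge (2 * K)
    obtain ⟨L, hL⟩ := exists_nat_ge (K * 4 ^ k0)
    refine ⟨{j | lev j < L}, ?_, fun σ j hV hj => ?_⟩
    · refine (((Set.finite_Iic L).image hub).union ((Set.finite_Iic L).biUnion fun n _ =>
        Set.finite_range fun q : Fin (p.NN n) × Fin 8 => vj n q.1 q.2)).subset ?_
      rintro (m | ⟨n, i, c⟩) h <;> simp only [lev, Set.mem_setOf_eq] at h
      · exact .inl ⟨m, by simp; omega, rfl⟩
      · exact .inr (Set.mem_biUnion (show n ∈ Set.Iic L from h.le) ⟨(i, c), rfl⟩)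
    · obtain ⟨k, hk⟩ := lower hV
      have hl : (L : ℝ) ≤ lev j := by exact_mod_cast not_lt.1 hj
      have p1 : 0 ≤ (lev j : ℝ) * (1 / 4) ^ k := by positivity
      by_cases h : k0 ≤ k
      · have : (k0 : ℝ) ≤ k := by exact_mod_cast h
        linarith
      · have h1 : (1 / 4 : ℝ) ^ k0 ≤ (1 / 4) ^ k :=
          pow_le_pow_of_le_one (by norm_num) (by norm_num) (by omega)
        have h2 : K * 4 ^ k0 * (1 / 4) ^ k0 = K := by rw [mul_assoc, ← mul_pow]; simp
        have h3 : K * 4 ^ k0 * (1 / 4) ^ k0 ≤ (lev j : ℝ) * (1 / 4) ^ k :=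
          mul_le_mul (hL.trans hl) h1 (by positivity) (Nat.cast_nonneg _)
        have : (0 : ℝ) ≤ k := Nat.cast_nonneg _
        linarith

end Par
end Pool.Agent.H.GRW
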