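import Pool.Agent.H.MP_4770bc_pr.G

/-! Connectivity, distances and non-amenability of the chain of hubs. -/

namespace Pool.Agent.H.GRW

open Function Valve
open scoped Classical

def Near {V : Type} (G : SimpleGraph V) (a b : V) (k : ℕ) : Prop := ∃ w : G.Walk a b, w.length ≤ k

section
variable {V : Type} {G : SimpleGraph V} {a b c : V} {k l : ℕ}
lemma Near.refl (a : V) (k : ℕ) : Near G a a k := ⟨.nil, Nat.zero_le _⟩
lemma Near.symm (h : Near G a b k) : Near G b a k := let ⟨w, h⟩ := h; ⟨w.reverse, by simpa using h⟩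
lemma Near.trans (h : Near G a b k) (h' : Near G b c l) : Near G a c (k + l) :=
  let ⟨w, h⟩ := h; let ⟨w', h'⟩ := h'; ⟨w.append w', by simp; omega⟩
lemma Near.mono (h : Near G a b k) (hk : k ≤ l) : Near G a b l := let ⟨w, h⟩ := h; ⟨w, h.trans hk⟩
lemma Near.adj (h : G.Adj a b) : Near G a b 1 := ⟨h.toWalk, by simp⟩

lemma flow_bd [G.LocallyFinite] (f : V → V → ℝ) (anti : ∀ a b, f a b = -f b a) (K : ℝ)
    (hK0 : 0 ≤ K) (hK : ∀ a b, G.Adj a b → f a b ≤ K)
    (hd : ∀ a, (G.degree a : ℝ) ≤ ∑ b ∈ G.neighborFinset a, f a b) (A : Finset V) :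
    ((∑ a ∈ A, G.degree a : ℕ) : ℝ) ≤
      K * {e ∈ G.edgeSet | ∃ a ∈ A, ∃ b ∉ A, e = s(a, b)}.ncard := by
  have z : ∑ a ∈ A, ∑ b ∈ A, (if G.Adj a b then f a b else 0) = 0 := by
    have : ∑ a ∈ A, ∑ b ∈ A, (if G.Adj a b then f a b else 0) =
        -∑ a ∈ A, ∑ b ∈ A, (if G.Adj a b then f a b else 0) := by
      conv_lhs => rw [Finset.sum_comm]
      simp only [← Finset.sum_neg_distrib]
      refine Finset.sum_congr rfl fun a _ => Finset.sum_congr rfl fun b _ => ?_
      rw [G.adj_comm b a, anti b a]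
      split_ifs <;> simp
    linarith
  let T : Finset (Σ _ : V, V) := A.sigma fun a => (G.neighborFinset a).filter (· ∉ A)
  have e1 : ∑ a ∈ A, ∑ b ∈ G.neighborFinset a, f a b = ∑ q ∈ T, f q.1 q.2 := by
    rw [Finset.sum_sigma]
    refine Eq.trans ?_ (add_zero _)
    rw [← z, ← Finset.sum_add_distrib]
    refine Finset.sum_congr rfl fun a _ => ?_
    rw [← Finset.sum_filter_add_sum_filter_not (G.neighborFinset a) (· ∉ A), ← Finset.sum_filter]
    congr 1
    refine Finset.sum_congr ?_ fun _ _ => rfl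
    ext b; simp [and_comm]
  have e2 : ∑ q ∈ T, f q.1 q.2 ≤ T.card * K := by
    simpa using Finset.sum_le_card_nsmul T (fun q => f q.1 q.2) K fun q hq => hK _ _ (by
      simp only [T, Finset.mem_sigma, Finset.mem_filter, SimpleGraph.mem_neighborFinset] at hq
      exact hq.2.1)
  have e3 : {e ∈ G.edgeSet | ∃ a ∈ A, ∃ b ∉ A, e = s(a, b)} =
      ↑(T.image fun q => s(q.1, q.2)) := by
    ext e
    simp only [T, Set.mem_setOf_eq, Finset.coe_image, Set.mem_image, Finset.mem_coe,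
      Finset.mem_sigma, Finset.mem_filter, SimpleGraph.mem_neighborFinset]
    constructor
    · rintro ⟨h, a, ha, b, hb, rfl⟩
      exact ⟨⟨a, b⟩, ⟨ha, h, hb⟩, rfl⟩
    · rintro ⟨⟨a, b⟩, ⟨ha, h, hb⟩, rfl⟩
      exact ⟨h, a, ha, b, hb, rfl⟩
  rw [e3, Set.ncard_coe_finset, Finset.card_image_of_injOn]
  · push_cast
    have := Finset.sum_le_sum fun a (_ : a ∈ A) => hd a
    linarith
  · rintro ⟨a, b⟩ h ⟨c, d⟩ h' e
    simp only [T, Finset.mem_coe, Finset.mem_sigma, Finset.mem_filter] at h h'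
    rcases Sym2.eq_iff.1 e with ⟨rfl, rfl⟩ | ⟨rfl, rfl⟩
    · rfl
    · exact absurd h.1 h'.2.2
end

namespace Net
variable {J S : Type} (N : Net J S)

lemma near_pt (s : S) (k : ℕ) (hk : k ≤ N.len s) : Near N.gr (.inl (N.u s)) (N.pt s k) k := by
  induction k with
  | zero => rw [N.pt_zero]; exact .refl _ _
  | succ k ih => exact (ih (by omega)).trans (.adj ⟨s, k, hk, .inl ⟨rfl, rfl⟩⟩)

lemma near_uv (s : S) : Near N.gr (.inl (N.u s)) (.inl (N.v s)) (N.len s) := by
  rw [← N.pt_len]; exact N.near_pt s _ le_rfl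

noncomputable def fl (b : S → ℝ) (x y : N.Vx) : ℝ :=
  if h : ∃ q : S × ℕ, q.2 < N.len q.1 ∧ x = N.pt q.1 q.2 ∧ y = N.pt q.1 (q.2 + 1) then
    b h.choose.1 + 2 * h.choose.2 else 0

lemma fl_f (b : S → ℝ) {s : S} {k : ℕ} (hk : k < N.len s) :
    N.fl b (N.pt s k) (N.pt s (k + 1)) - N.fl b (N.pt s (k + 1)) (N.pt s k) = b s + 2 * k := by
  have h : ∃ q : S × ℕ, q.2 < N.len q.1 ∧ N.pt s k = N.pt q.1 q.2 ∧
      N.pt s (k + 1) = N.pt q.1 (q.2 + 1) := ⟨(s, k), hk, rfl, rfl⟩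
  obtain ⟨h1, h2, h3⟩ := h.choose_spec
  obtain ⟨e1, e2⟩ := N.E_inj hk h1 (by unfold E; rw [← h2, ← h3])
  unfold fl
  rw [dif_pos h, ← e1, ← e2, dif_neg, sub_zero]
  rintro ⟨⟨s', k'⟩, h1, h2, h3⟩
  obtain ⟨rfl, rfl⟩ := N.E_inj hk h1 (by unfold E; rw [← h2, ← h3, Sym2.eq_swap])
  have := N.pt_inj hk hk.le h2
  omega

lemma nonamen (b : S → ℝ) (K : ℝ) (hK0 : 0 ≤ K) (hb : ∀ s, 0 ≤ b s ∧ b s + 2 * N.len s ≤ K)
    (hj : ∀ j, 0 ≤ ∑ s ∈ N.inc j, if N.u s = j then b s - 1 else -(b s + 2 * N.len s - 1))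
    (A : Finset N.Vx) : ((∑ a ∈ A, N.gr.degree a : ℕ) : ℝ) ≤
      K * {e ∈ N.gr.edgeSet | ∃ a ∈ A, ∃ b ∉ A, e = s(a, b)}.ncard := by
  refine flow_bd (fun x y => N.fl b x y - N.fl b y x) (fun _ _ => by ring) K hK0 ?_ ?_ A
  · rintro _ _ ⟨s, k, hk, ⟨rfl, rfl⟩ | ⟨rfl, rfl⟩⟩
    · have : (k : ℝ) ≤ N.len s := by exact_mod_cast hk.le
      rw [N.fl_f b hk]; linarith [hb s]
    · have := N.fl_f b hk
      have : (0 : ℝ) ≤ k := Nat.cast_nonneg k
      linarith [hb s]
  · rintro (j | ⟨⟨s, k⟩, h⟩)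
    · rw [← SimpleGraph.card_neighborFinset_eq_degree, nb_inl,
        Finset.sum_image (N.nxt_inj j).injOn, Finset.card_image_of_injective _ (N.nxt_inj j)]
      have := hj j
      rw [Finset.card_eq_sum_ones]
      push_cast
      rw [← sub_nonneg, ← Finset.sum_sub_distrib]
      refine this.trans (le_of_eq (Finset.sum_congr rfl fun s hs => ?_))
      have h2 := N.two s
      unfold nxt
      split_ifs with e
      · have := N.fl_f b (s := s) (k := 0) (by omega)
        rw [N.pt_zero, e] at this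
        simp only [zero_add] at this
        rw [this]; simp
      · have := N.fl_f b (s := s) (k := N.len s - 1) (by omega)
        rw [Nat.sub_add_cancel (by omega), N.pt_len, ((N.mem j s).1 hs).resolve_left e,
          Nat.cast_sub (by omega)] at this
        push_cast at this
        linarith
    · rw [← N.pt_in h, ← SimpleGraph.card_neighborFinset_eq_degree, N.nb_in h,
        Finset.sum_pair (N.pm_ne h), Finset.card_pair (N.pm_ne h), N.fl_f b h.2]
      have := N.fl_f b (s := s) (k := k - 1) (by have := h.2; dsimp only at this; omega)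
      rw [Nat.sub_add_cancel h.1, Nat.cast_sub h.1] at this
      push_cast at this ⊢
      linarith

end Net

namespace Par
open Jn Sg
variable {p : Par}

def hj : p.Jn → ℕ
  | hub m => m
  | vj n _ _ => n

def bh : p.net.Vx → ℕ
  | .inl j => hj j
  | .inr q => hj (uu q.1.1)

lemma ln_le (s : p.Sg) : p.net.len s ≤ 4000000 := by
  rcases s with ⟨n, i, e⟩ | _ | _
  · exact (s_facts e).2.2.2.2.2.2.2
  · exact (by norm_num : 2 ≤ 4000000)
  · exact (by norm_num : 2 ≤ 4000000)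

lemma near_j (j : p.Jn) : Near p.net.gr (.inl (hub (hj j))) (.inl j) 32000000 := by
  rcases j with m | ⟨n, i, c⟩
  · exact .refl _ _
  have s : ∀ e, Near p.net.gr (.inl (loc n i (su e))) (.inl (loc n i (sv e))) 4000000 :=
    fun e => (p.net.near_uv (va n i e)).mono (ln_le _)
  have a0 : Near p.net.gr (.inl (hub n)) (.inl (loc n i 0)) 4000000 := s 0
  have a1 := a0.trans (s 1)
  have a2 := a1.trans (s 3)
  have a3 := a2.trans (s 4)
  have a4 := a3.trans (s 6)
  have a5 := a4.trans (s 7)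
  have a6 := a5.trans (s 9)
  have a7 := a6.trans (s 10)
  fin_cases c
  exacts [a0.mono (by norm_num), a1.mono (by norm_num), a2.mono (by norm_num),
    a3.mono (by norm_num), a4.mono (by norm_num), a5.mono (by norm_num), a6.mono (by norm_num),
    a7.mono (by norm_num)]

lemma near_bh (x : p.net.Vx) : Near p.net.gr (.inl (hub (bh x))) x 36000000 := by
  rcases x with j | ⟨⟨s, k⟩, h⟩
  · exact (near_j j).mono (by norm_num)
  · have := (near_j (uu s)).trans ((p.net.near_pt s k h.2.le).mono (h.2.le.trans (ln_le s)))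
    rw [p.net.pt_in h] at this
    exact this.mono (by norm_num)

lemma near_lat {a b : ℕ} (h : b ∈ p.lat a) : Near p.net.gr (.inl (hub a)) (.inl (hub b)) 2 := by
  rcases lt_trichotomy a b with e | rfl | e
  · exact p.net.near_uv (la a b ⟨e, h⟩)
  · exact .refl _ _
  · exact (p.net.near_uv (la b a ⟨e, p.symm h⟩)).symm

lemma conn (p : Par) : p.net.gr.Connected := by
  have a : ∀ n, p.net.gr.Reachable (.inl (hub 0)) (.inl (hub n)) := by
    intro n
    induction n with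
    | zero => rfl
    | succ n ih =>
      obtain ⟨w, -⟩ := p.net.near_uv (fa n ⟨0, p.F_pos n⟩)
      exact ih.trans ⟨w⟩
  have b : ∀ x, p.net.gr.Reachable (.inl (hub 0)) x := fun x => by
    obtain ⟨w, -⟩ := near_bh x
    exact (a _).trans ⟨w⟩
  haveI : Nonempty p.net.Vx := ⟨.inl (hub 0)⟩
  exact ⟨fun x y => (b x).symm.trans (b y)⟩

lemma adj_bh {R : ℕ → ℕ → Prop} (r0 : ∀ a, R a a) (rs : ∀ a b, R a b → R b a)
    (r1 : ∀ a, R a (a + 1)) (r2 : ∀ a b, b ∈ p.lat a → R a b) {x y : p.net.Vx}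
    (h : p.net.gr.Adj x y) : R (bh x) (bh y) := by
  have a : ∀ s : p.Sg, R (hj (uu s)) (hj (vv s)) := by
    rintro (⟨n, i, e⟩ | _ | ⟨a, b, h⟩)
    · have t : ∀ o, hj (loc n i o) = n ∨ hj (loc n i o) = n + 1 := by
        intro o
        unfold loc
        split_ifs
        exacts [.inl rfl, .inl rfl, .inr rfl]
      simp only [uu, vv]
      rcases t (su e) with e1 | e1 <;> rcases t (sv e) with e2 | e2 <;> rw [e1, e2]
      exacts [r0 _, r1 _, rs _ _ (r1 _), r0 _]
    · exact r1 _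
    · exact r2 _ _ h.2
  have b : ∀ s k, k ≤ p.net.len s → bh (p.net.pt s k) = hj (uu s) ∨ bh (p.net.pt s k) = hj (vv s) := by
    intro s k hk
    rcases p.net.pt_cases s hk with ⟨-, d⟩ | ⟨-, d⟩ | ⟨_, d⟩ <;> rw [d]
    exacts [.inl rfl, .inr rfl, .inl rfl]
  have c : ∀ s k l, k ≤ p.net.len s → l ≤ p.net.len s → R (bh (p.net.pt s k)) (bh (p.net.pt s l)) := by
    intro s k l hk hl
    rcases b s k hk with e | e <;> rcases b s l hl with e' | e' <;> rw [e, e']
    exacts [r0 _, a s, rs _ _ (a s), r0 _]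
  obtain ⟨s, k, hk, ⟨rfl, rfl⟩ | ⟨rfl, rfl⟩⟩ := h
  · exact c s _ _ hk.le hk
  · exact c s _ _ hk hk.le

def fb : Fin 13 → ℕ := ![8240003, 4120004, 4120004, 8320007, 4160006, 4160006, 8400011, 4200008,
  4200008, 8480015, 4240010, 4240010, 8560019]

def fS : p.Sg → ℝ
  | va _ _ e => fb e
  | _ => 0

lemma fb_ok : (∀ e, fb e + 2 * sl e ≤ 17000000) ∧ ∀ c : Fin 8, 0 ≤ ∑ e : Fin 13,
    if su e = c ∨ sv e = c then (if su e = c then (fb e : ℤ) - 1 else -(fb e + 2 * sl e - 1))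
    else 0 := by decide +kernel

theorem nonamen (p : Par) (A : Finset p.net.Vx) : ((∑ a ∈ A, p.net.gr.degree a : ℕ) : ℝ) ≤
    17000000 * {e ∈ p.net.gr.edgeSet | ∃ a ∈ A, ∃ b ∉ A, e = s(a, b)}.ncard := by
  refine p.net.nonamen fS _ (by norm_num) ?_ ?_ A
  · rintro (⟨n, i, e⟩ | _ | _)
    · exact ⟨Nat.cast_nonneg _, by simp only [fS, net, ln]; exact_mod_cast fb_ok.1 e⟩
    · simp [fS, net, ln]; norm_num
    · simp [fS, net, ln]; norm_num
  · rintro (m | ⟨n, i, c⟩)
    · change 0 ≤ ∑ s ∈ inc (hub m), if uu s = hub m then fS s - 1 else -(fS s + 2 * ln s - 1)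
      rw [sum_hub]
      have C : ∑ j : p.lat m, -(3 * ((j : ℝ) + 1)) ≤ ∑ j : p.lat m, (if uu (la' m j) = hub m then
          fS (la' m j) - 1 else -(fS (la' m j) + 2 * ln (la' m j) - 1)) := by
        refine Finset.sum_le_sum fun j _ => ?_
        obtain ⟨a, b, h, e⟩ := la'_la m j
        have : (0 : ℝ) ≤ (j : ℕ) := Nat.cast_nonneg _
        simp only [e, fS, ln]
        split_ifs <;> push_cast <;> linarith
      rw [Finset.sum_neg_distrib, ← Finset.mul_sum] at C
      have l := Lam_bd (p := p) m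
      have l0 := Lam_nn (p := p) m
      have l1 : 10 * Lam (p := p) m ≤ p.F m := by
        have : (0 : ℝ) ≤ m := Nat.cast_nonneg m
        have : (1 : ℝ) ≤ ((m : ℝ) + 1) ^ 2 := by nlinarith
        nlinarith
      unfold Lam at l1
      generalize (∑ j : p.lat m, (if uu (la' m j) = hub m then
          fS (la' m j) - 1 else -(fS (la' m j) + 2 * ln (la' m j) - 1))) = T at C ⊢
      have f0 : (0 : ℝ) ≤ p.F m := Nat.cast_nonneg _
      rcases m with _ | n
      · simp [low, uu, su, loc, fS, fb]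
        simp only [NN]
        push_cast
        linarith
      · rw [sum_low]
        rw [F_succ] at l1 f0
        simp [uu, su, loc, fS, fb, ln, sl]
        simp only [NN, F_succ]
        push_cast at l1 f0 ⊢
        linarith
    · change 0 ≤ ∑ s ∈ inc (vj n i c), if uu s = vj n i c then fS s - 1 else -(fS s + 2 * ln s - 1)
      rw [sum_vj]
      simp only [uu, loc_vj, true_and, fS, ln]
      exact_mod_cast fb_ok.2 c

theorem recurrent (p : Par) : (∃ (Ω : Type) (_ : MeasurableSpace Ω) (P : MeasureTheory.Measure Ω)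
    (X : ℕ → Ω → p.net.Vx), IsGRW p.net.gr (.inl (hub 0)) P X) ∧
    ∀ (Ω : Type) [MeasurableSpace Ω] (P : MeasureTheory.Measure Ω) (X : ℕ → Ω → p.net.Vx),
      IsGRW p.net.gr (.inl (hub 0)) P X → ∀ᵐ ω ∂P, {t | X t ω = .inl (hub 0)}.Infinite := by
  refine ⟨exists_grw (fun v => ?_) _, fun Ω _ P X h => Net.net_recur (good p) (conn p).1 h⟩
  haveI : Nontrivial p.net.Vx := ⟨⟨.inl (hub 0), .inl (hub 1), by simp⟩⟩
  obtain ⟨u, hu⟩ := (conn p).1.exists_adj_of_nontrivial v
  exact ⟨u, by simpa using hu⟩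

end Par
end Pool.Agent.H.GRW
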