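import Pool.Agent.H.MP_4770bc_pr.I

/-! A proper walk through `ℤ³` with polynomial index growth, and the rough isometry. -/

namespace Pool.Agent.H.GRW.Z3

open scoped Classical

abbrev Z3 := Fin 3 → ℤ

noncomputable def cube (r : ℕ) : Finset Z3 := Finset.Icc (fun _ => -r) fun _ => r

noncomputable def pth (r : ℕ) (q : Z3) (s : ℕ) : Z3 :=
  if h : q ∈ cube r ∧ ∃ k, |q k| = r then
    fun i => if i = h.2.choose then max (q i) (r - s) else max (q i) (r - max 0 (s - 2 * r))
  else fun _ => r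

lemma mem_cube {r : ℕ} {q : Z3} : q ∈ cube r ↔ ∀ i, -(r : ℤ) ≤ q i ∧ q i ≤ r := by
  simp [cube, Pi.le_def, forall_and]

lemma pth_zero (r : ℕ) (q : Z3) : pth r q 0 = fun _ => (r : ℤ) := by
  unfold pth
  split_ifs with h
  · funext i
    have := mem_cube.1 h.1 i
    split_ifs <;> omega
  · rfl

lemma pth_end {r : ℕ} {q : Z3} (h : q ∈ cube r ∧ ∃ k, |q k| = r) : pth r q (4 * r) = q := by
  unfold pth
  rw [dif_pos h]
  funext i
  have := mem_cube.1 h.1 i
  split_ifs <;> omega

lemma pth_step (r : ℕ) (q : Z3) {s t : ℕ} (h1 : s ≤ t + 1) (h2 : t ≤ s + 1) (i : Fin 3) :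
    |pth r q s i - pth r q t i| ≤ 1 := by
  unfold pth
  rw [abs_le]
  split_ifs with h
  · dsimp only
    split_ifs <;> omega
  · simp

lemma pth_sph (r : ℕ) (q : Z3) (s : ℕ) : (∀ i, |pth r q s i| ≤ r) ∧ ∃ k, |pth r q s k| = r := by
  unfold pth
  split_ifs with h
  · have m := mem_cube.1 h.1
    have c := h.2.choose_spec
    refine ⟨fun i => ?_, ?_⟩
    · have := m i
      rw [abs_le]
      dsimp only
      split_ifs <;> omega
    · by_cases hs : s ≤ 2 * r
      · obtain ⟨k, hk⟩ := exists_ne h.2.choose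
        have := m k
        refine ⟨k, ?_⟩
        dsimp only
        rw [if_neg hk, abs_eq (by omega)]; omega
      · refine ⟨h.2.choose, ?_⟩
        have := m h.2.choose
        dsimp only
        rw [if_pos rfl, max_eq_left (by omega), c]
  · simp

noncomputable def ell (r : ℕ) : ℕ := (cube r).card * (8 * r + 1)
noncomputable def St (r : ℕ) : ℕ := ∑ k ∈ Finset.range r, ell k

lemma card_cube (r : ℕ) : (cube r).card = (2 * r + 1) ^ 3 := by
  simp only [cube, Pi.card_Icc, Int.card_Icc, Finset.prod_const, Finset.card_univ,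
    Fintype.card_fin]
  congr 1; omega

lemma St_succ (r : ℕ) : St (r + 1) = St r + ell r := Finset.sum_range_succ _ _
lemma ell_pos (r : ℕ) : 0 < ell r := by unfold ell; rw [card_cube]; positivity
lemma St_mono : StrictMono St := strictMono_nat_of_lt_succ fun r => by
  have := ell_pos r
  rw [St_succ]; omega

lemma St_le (r : ℕ) : St r ≤ 64 * r ^ 5 := by
  have : St r ≤ r * (64 * r ^ 4) := by
    simpa [St] using Finset.sum_le_card_nsmul (Finset.range r) ell (64 * r ^ 4) fun k hk => by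
      have := Finset.mem_range.1 hk
      unfold ell
      rw [card_cube]
      calc (2 * k + 1) ^ 3 * (8 * k + 1) ≤ (2 * r) ^ 3 * (8 * r) := by gcongr <;> omega
        _ = _ := by ring
  linarith [show r * (64 * r ^ 4) = 64 * r ^ 5 by ring]

lemma ex_r (n : ℕ) : ∃ r, n < St (r + 1) := ⟨n, St_mono.le_apply⟩
noncomputable def rr (n : ℕ) : ℕ := Nat.find (ex_r n)
lemma rr_lt (n : ℕ) : n < St (rr n + 1) := Nat.find_spec (ex_r n)
lemma rr_le (n : ℕ) : St (rr n) ≤ n := by
  rcases h : rr n with _ | r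
  · simp [St]
  · exact not_lt.1 (Nat.find_min (ex_r n) (show r < rr n by omega))
lemma rr_eq {n r : ℕ} (h1 : St r ≤ n) (h2 : n < St (r + 1)) : rr n = r := by
  have a := St_mono.lt_iff_lt.1 ((rr_le n).trans_lt h2)
  have b := St_mono.lt_iff_lt.1 (h1.trans_lt (rr_lt n))
  omega

noncomputable def pos (r o : ℕ) : Z3 :=
  pth r ((cube r).toList.getD (o / (8 * r + 1)) 0) (min (o % (8 * r + 1)) (8 * r - o % (8 * r + 1)))

noncomputable def z (n : ℕ) : Z3 := pos (rr n) (n - St (rr n))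

lemma dm (o c : ℕ) : ((o + 1) % (c + 1) = 0 ∧ o % (c + 1) = c) ∨
    ((o + 1) / (c + 1) = o / (c + 1) ∧ (o + 1) % (c + 1) = o % (c + 1) + 1) := by
  have h := Nat.mod_lt o (Nat.add_one_pos c)
  have e := Nat.div_add_mod o (c + 1)
  by_cases h1 : o % (c + 1) = c
  · left
    refine ⟨?_, h1⟩
    rw [show o + 1 = (c + 1) * (o / (c + 1) + 1) by rw [mul_add]; omega, Nat.mul_mod_right]
  · right
    exact (Nat.div_mod_unique (Nat.add_one_pos c)).2 ⟨by omega, by omega⟩

lemma z_step (n : ℕ) (i : Fin 3) : |z (n + 1) i - z n i| ≤ 1 := by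
  have a := rr_le n
  have b := rr_lt n
  unfold z
  by_cases h : n + 1 < St (rr n + 1)
  · rw [rr_eq (n := n + 1) (by omega) h, show n + 1 - St (rr n) = n - St (rr n) + 1 by omega]
    unfold pos
    rcases dm (n - St (rr n)) (8 * rr n) with ⟨h1, h2⟩ | ⟨h1, h2⟩
    · simp [h1, h2, pth_zero]
    · rw [h1, h2]; exact pth_step _ _ (by omega) (by omega) i
  · have e : n + 1 = St (rr n + 1) := by omega
    rw [rr_eq (n := n + 1) e.ge (by rw [e]; exact St_mono (by omega)), ← e, Nat.sub_self]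
    rw [St_succ] at e
    have : (n - St (rr n) + 1) % (8 * rr n + 1) = 0 := by
      rw [show n - St (rr n) + 1 = ell (rr n) by omega, ell, Nat.mul_mod_left]
    unfold pos
    rcases dm (n - St (rr n)) (8 * rr n) with ⟨h1, h2⟩ | ⟨h1, h2⟩
    · simp [h2, pth_zero]
    · omega

lemma z_surj (q : Z3) : ∃ n, z n = q := by
  obtain ⟨k, -, hk⟩ := Finset.exists_max_image Finset.univ (fun i => |q i|) Finset.univ_nonempty
  obtain ⟨r, hr⟩ := Int.eq_ofNat_of_zero_le (abs_nonneg (q k))
  have hq : q ∈ cube r := mem_cube.2 fun i => abs_le.1 (hr ▸ hk i (Finset.mem_univ _))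
  obtain ⟨t, ht, e⟩ := List.mem_iff_getElem.1 (Finset.mem_toList.2 hq)
  have ht' : t < (cube r).card := by simpa using ht
  have lt : 4 * r + (8 * r + 1) * t < ell r := by
    unfold ell
    calc _ < (t + 1) * (8 * r + 1) := by nlinarith
      _ ≤ _ := by gcongr; exact ht'
  refine ⟨St r + (4 * r + (8 * r + 1) * t), ?_⟩
  obtain ⟨d1, d2⟩ := (Nat.div_mod_unique (a := 4 * r + (8 * r + 1) * t) (Nat.add_one_pos (8 * r))).2
    ⟨rfl, show 4 * r < 8 * r + 1 by omega⟩
  unfold z
  rw [rr_eq (r := r) (by omega) (by rw [St_succ]; omega), Nat.add_sub_cancel_left, pos, d1, d2,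
    List.getD_eq_getElem _ _ ht, e, show min (4 * r) (8 * r - 4 * r) = 4 * r by omega]
  exact pth_end ⟨hq, k, hr⟩

lemma z_close {m j : ℕ} (h : ∀ i, |z j i - z m i| ≤ 1) : j < St (m + 2) := by
  obtain ⟨k, hk⟩ : ∃ k, |z j k| = rr j := (pth_sph _ _ _).2
  have a : |z m k| ≤ rr m := (pth_sph _ _ _).1 k
  have b := abs_sub_abs_le_abs_sub (z j k) (z m k)
  have c := h k
  have d : rr m ≤ m := St_mono.le_apply.trans (rr_le m)
  exact (rr_lt j).trans_le (St_mono.monotone (by omega))

noncomputable def lat (m : ℕ) : Finset ℕ :=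
  (Finset.range (St (m + 2))).filter fun j => j ≠ m ∧ ∀ i, |z j i - z m i| ≤ 1

lemma mem_lat {m j : ℕ} : j ∈ lat m ↔ j ≠ m ∧ ∀ i, |z j i - z m i| ≤ 1 := by
  simp only [lat, Finset.mem_filter, Finset.mem_range]
  exact ⟨fun h => h.2, fun h => ⟨z_close h.2, h⟩⟩

lemma lat_bd (m : ℕ) :
    10 * (∑ j ∈ lat m, (j + 1)) * (m + 1) ^ 2 ≤ 10 * 2048 ^ 2 * 12 ^ 12 * 2 ^ m := by
  have a : St (m + 2) ≤ 2048 * (m + 1) ^ 5 := (St_le _).trans (by
    calc 64 * (m + 2) ^ 5 ≤ 64 * (2 * (m + 1)) ^ 5 := by gcongr; omega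
      _ = _ := by ring)
  have b : ∑ j ∈ lat m, (j + 1) ≤ St (m + 2) * St (m + 2) := by
    refine (Finset.sum_le_card_nsmul _ _ (St (m + 2)) fun j hj => z_close (mem_lat.1 hj).2).trans ?_
    rw [smul_eq_mul]
    gcongr
    simpa [lat] using Finset.card_filter_le (Finset.range (St (m + 2))) _
  have c : m + 1 ≤ 12 * 2 ^ (m / 12) := by
    have := Nat.lt_two_pow_self (n := m / 12)
    omega
  have d : (m + 1) ^ 12 ≤ 12 ^ 12 * 2 ^ m := by
    calc (m + 1) ^ 12 ≤ (12 * 2 ^ (m / 12)) ^ 12 := by gcongr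
      _ = 12 ^ 12 * 2 ^ (m / 12 * 12) := by rw [mul_pow, ← pow_mul]
      _ ≤ _ := by gcongr; exacts [by norm_num, Nat.div_mul_le_self _ _]
  calc 10 * (∑ j ∈ lat m, (j + 1)) * (m + 1) ^ 2
      ≤ 10 * ((2048 * (m + 1) ^ 5) * (2048 * (m + 1) ^ 5)) * (m + 1) ^ 2 := by
        gcongr; exact b.trans (by gcongr)
    _ = 10 * 2048 ^ 2 * (m + 1) ^ 12 := by ring
    _ ≤ 10 * 2048 ^ 2 * (12 ^ 12 * 2 ^ m) := by gcongr
    _ = _ := by ring

lemma ex_par : ∃ p : Par, p.lat = lat :=
  ⟨⟨lat, fun h => mem_lat.2 ⟨(mem_lat.1 h).1.symm, fun i => by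
    rw [abs_sub_comm]; exact (mem_lat.1 h).2 i⟩, fun a h => (mem_lat.1 h).1 rfl, _,
    by norm_num, lat_bd⟩, rfl⟩

variable {par : Par} (hp : par.lat = lat)
include hp

lemma near_close {a b : ℕ} (h : ∀ i, |z b i - z a i| ≤ 1) :
    Near par.net.gr (.inl (.hub a)) (.inl (.hub b)) 2 := by
  by_cases e : b = a
  · rw [e]; exact .refl _ _
  · exact Par.near_lat (hp ▸ mem_lat.2 ⟨e, h⟩)

lemma near_hub (d : ℕ) : ∀ a b : ℕ, ∑ i, |z a i - z b i| = d →
    Near par.net.gr (.inl (.hub a)) (.inl (.hub b)) (2 * d + 2) := by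
  induction d with
  | zero =>
    intro a b h
    refine near_close hp fun i => ?_
    have := Finset.single_le_sum (f := fun i => |z a i - z b i|) (fun _ _ => abs_nonneg _)
      (Finset.mem_univ i)
    rw [abs_sub_comm]; omega
  | succ d ih =>
    intro a b h
    obtain ⟨k, hk⟩ : ∃ k, z a k ≠ z b k := by
      by_contra hn
      push Not at hn
      simp [hn] at h
      omega
    obtain ⟨m, hm⟩ := z_surj (Function.update (z a) k (if z a k < z b k then z a k + 1 else z a k - 1))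
    refine ((near_close hp (b := m) fun i => ?_).trans (ih m b ?_)).mono (by omega)
    · rw [hm]
      by_cases e : i = k
      · subst e; rw [Function.update_self]; split_ifs <;> simp
      · simp [e]
    · rw [← Finset.add_sum_erase _ _ (Finset.mem_univ k)] at h ⊢
      rw [hm, Finset.sum_congr rfl fun i hi => by
        rw [Function.update_of_ne (Finset.ne_of_mem_erase hi)], Function.update_self]
      have : |(if z a k < z b k then z a k + 1 else z a k - 1) - z b k| + 1 = |z a k - z b k| := by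
        split_ifs
        · rw [abs_of_nonpos (by omega), abs_of_nonpos (by omega)]; ring
        · rw [abs_of_nonneg (by omega), abs_of_nonneg (by omega)]; ring
      push_cast at h
      omega

lemma lower (x y : par.net.Vx) :
    (par.net.gr.dist x y : ℤ) ≤ 2 * ∑ i, |z (Par.bh x) i - z (Par.bh y) i| + 72000002 := by
  obtain ⟨d, hd⟩ := Int.eq_ofNat_of_zero_le
    (Finset.sum_nonneg fun i (_ : i ∈ Finset.univ) => abs_nonneg (z (Par.bh x) i - z (Par.bh y) i))
  obtain ⟨w, hw⟩ := ((Par.near_bh x).symm.trans (near_hub hp d _ _ hd)).trans (Par.near_bh y)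
  have := SimpleGraph.dist_le w
  omega

lemma upper (x y : par.net.Vx) :
    ∑ i, |z (Par.bh x) i - z (Par.bh y) i| ≤ 3 * (par.net.gr.dist x y : ℤ) := by
  obtain ⟨w, hw⟩ := par.conn.exists_walk_length_eq_dist x y
  rw [← hw]
  clear hw
  induction w with
  | nil => simp
  | @cons a b c h w ih =>
    have := Par.adj_bh (p := par) (R := fun a b => ∀ i, |z b i - z a i| ≤ 1) (by simp)
      (fun a b h i => by rw [abs_sub_comm]; exact h i) z_step (fun a b h => (mem_lat.1 (hp ▸ h)).2) h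
    have t : ∑ i, |z (Par.bh a) i - z (Par.bh c) i| ≤
        ∑ i, (1 + |z (Par.bh b) i - z (Par.bh c) i|) := Finset.sum_le_sum fun i _ => by
      have := this i
      have := abs_sub_le (z (Par.bh a) i) (z (Par.bh b) i) (z (Par.bh c) i)
      rw [abs_sub_comm (z (Par.bh a) i) (z (Par.bh b) i)] at this
      omega
    rw [Finset.sum_add_distrib] at t
    simp only [SimpleGraph.Walk.length_cons, Finset.sum_const, Finset.card_univ, Fintype.card_fin] at t ⊢
    push_cast at t ⊢
    simp only [nsmul_eq_mul] at t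
    omega

end Pool.Agent.H.GRW.Z3
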